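import Pool.Agent.SYS.RL.Defs
import Pool.Agent.SYS.BD.Hist

/-!
# Project SYS (MP_650813_pr), block SH: two hidden components with holes (definitions).  DO NOT CHANGE.

`HP Φ`: the function `Φ p F` of a perimeter and a number of triangles satisfies the inequality of `hist` (`BD/Hist`).
`LL a P₁ P₂ F g`: pairs of connected maps with holes `P₁`, `P₂`, together `F` triangles and genus `g`, such that
`#P₁ - 1 + 2 g₁ ≥ a` and `#P₂ - 1 + 2 g₂ ≥ a` (`a = 1`: none of them is a disc).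
`gam x = A/√y`: growth of the number of maps with the perimeter.
-/

namespace SYS.Num

open Finset

/-- The property of `hist`. -/
def HP (Φ : ℕ → ℕ → ℝ) : Prop :=
  (∀ p F, 0 ≤ Φ p F) ∧ ∀ (p F : ℕ), 1 ≤ p → ∀ S : Finset (List Stp), PF S →
    (∀ w ∈ S, WOk p w ∧ wvol w ≤ F) →
      ∑ w ∈ S, wwt 1 W w * Φ (wend p w) (F - wvol w) ≤ Φ p F

/-- Two hidden components. -/
noncomputable def LL (a : ℕ) (P₁ P₂ : Multiset ℕ) (F g : ℕ) : ℝ :=
  ∑ f ∈ antidiagonal F, ∑ e ∈ antidiagonal g,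
    if a + 1 ≤ Multiset.card P₁ + 2 * e.1 ∧ a + 1 ≤ Multiset.card P₂ + 2 * e.2 then
      muG P₁ f.1 e.1 * muG P₂ f.2 e.2 else 0

/-- `A/√y`. -/
noncomputable def gam (x : ℝ) : ℝ := AA x / √(yy x)

end SYS.Num
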