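import Pool.Agent.SYS.RL.Nu
import Pool.Agent.SYS.SP.Dec

/-!
# SYS-SH-Rn: ratios of `nu` in the form of the window

PROOF.
* `nu_add`: `nu_low` with `ε' < yy x` such that `yy x/(yy x - ε') ≤ exp (2 ε)`: with `n = (F + v + k)/2`, `n₀ = (F+1)/2`, `l = n - n₀` (`k ≥ 1`, so `n ≥ n₀` and `2 l ≤ v + k`):
  `(y - ε')^l nu n g ≤ nu n₀ g`; `√y^v = √y^(v - 2l) y^l` if `v ≥ 2 l`, and `v ≥ 2 l - k`, so `√y^v ≤ √y^(-k) y^l`, `l ≤ (v + k)/2`.  `n ≥ M`, `|g - θ n| ≤ δ' n`, `l ≤ δ' n` from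
  the hypotheses with smaller `δ`.
* `nu_gen`: `rat_g` (`RB/Out`) in the form `n² nu n (g-1) ≤ (chi + 1) nu n g` in a window (`Fth_ev`), iterated `j` times (`g - i` stays in the window as `j` is fixed); `n = (F+1)/2`, `F ≤ 2 n`.
-/

namespace SYS.Num

open Finset Real

variable {θ x : ℝ}

private theorem rn_nn (n g : ℕ) : 0 ≤ SST.nu n g := by
  unfold SST.nu
  positivity

private theorem rn_yy (x : ℝ) : 0 < yy x ∧ yy x ≤ 1 := by
  have h1 : 1 ≤ cosh x := one_le_cosh x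
  have h2 : cosh x < rr x := by
    unfold rr
    rw [Real.lt_sqrt (by linarith)]
    linarith
  have h3 : 0 < rr x := by linarith
  have h4 : cosh x < rr x ^ 3 := by
    have h5 : 1 < rr x := by linarith
    have h6 : rr x ≤ rr x ^ 3 := by nlinarith [mul_pos h3 h3]
    linarith
  unfold yy
  refine ⟨by positivity, ?_⟩
  rw [div_le_one (by positivity)]
  have h5 : 0 < rr x ^ 3 := by positivity
  linarith

theorem nu_add (h : Par θ x) {ε : ℝ} (hε : 0 < ε) (k₀ : ℕ) : ∃ (K δ : ℝ) (M : ℕ), 0 < K ∧ 0 < δ ∧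
    ∀ F g v k : ℕ, M ≤ F → |2 * (g : ℝ) - θ * F| ≤ δ * F → (v : ℝ) ≤ δ * F → 1 ≤ k → k ≤ k₀ →
      √(yy x) ^ v * SST.nu ((F + v + k) / 2) g ≤ K * exp (ε * v) * SST.nu ((F + 1) / 2) g := by
  obtain ⟨hy0, hy1⟩ := rn_yy x
  have hθ := h.1
  have hθ1 := h.2.1
  have he1 : exp (-(2 * ε)) < 1 := by
    rw [Real.exp_lt_one_iff]
    linarith
  have he0 := Real.exp_pos (-(2 * ε))
  have hε1 : 0 < yy x * (1 - exp (-(2 * ε))) := mul_pos hy0 (by linarith)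
  have hε2 : yy x * (1 - exp (-(2 * ε))) < yy x := by nlinarith
  obtain ⟨δ', M', hδ', H⟩ := nu_low h hε1 hε2
  have hyε : yy x - yy x * (1 - exp (-(2 * ε))) = yy x * exp (-(2 * ε)) := by ring
  rw [hyε] at H
  have hs0 : 0 < √(yy x) := Real.sqrt_pos.2 hy0
  have hs1 : √(yy x) ≤ 1 := Real.sqrt_le_one.2 hy1
  refine ⟨(√(yy x) ^ k₀)⁻¹ * exp (ε * k₀), δ' / 8, max (2 * M') (⌈4 * (k₀ : ℝ) / δ'⌉₊), by positivity, by positivity, ?_⟩
  intro F g v k hF hg hv hk hk0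
  obtain ⟨n, hn⟩ : ∃ n, n = (F + v + k) / 2 := ⟨_, rfl⟩
  obtain ⟨m, hm⟩ : ∃ m, m = (F + 1) / 2 := ⟨_, rfl⟩
  obtain ⟨l, hl⟩ : ∃ l, l = n - m := ⟨_, rfl⟩
  have hnm : m ≤ n := by omega
  have hml : n - l = m := by omega
  have h2l : 2 * l ≤ v + k := by omega
  have hF1 : 2 * M' ≤ F := (le_max_left _ _).trans hF
  have hF2 : 4 * (k₀ : ℝ) ≤ δ' * F := by
    have h1 : 4 * (k₀ : ℝ) / δ' ≤ F := (Nat.le_ceil _).trans (by exact_mod_cast (le_max_right _ _).trans hF)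
    rw [div_le_iff₀ hδ'] at h1
    linarith
  have hF0 : (0 : ℝ) ≤ F := Nat.cast_nonneg F
  have hnM : M' ≤ n := by omega
  have hkr : (k : ℝ) ≤ k₀ := by exact_mod_cast hk0
  have e1 : (F : ℝ) ≤ 2 * n := by
    have : F ≤ 2 * n := by omega
    exact_mod_cast this
  have e2 : 2 * (n : ℝ) ≤ F + v + k := by
    have : 2 * n ≤ F + v + k := by omega
    exact_mod_cast this
  have e3 : 2 * (l : ℝ) ≤ v + k := by exact_mod_cast h2l
  have e4 : δ' * (F : ℝ) ≤ 2 * (δ' * n) := by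
    have := mul_le_mul_of_nonneg_left e1 hδ'.le
    linarith
  have e5 : 0 ≤ δ' * (F : ℝ) := by positivity
  have hgn : |(g : ℝ) - θ * n| ≤ δ' * n := by
    rw [abs_le] at hg ⊢
    have a1 : θ * (F : ℝ) ≤ θ * (2 * n) := mul_le_mul_of_nonneg_left e1 hθ.le
    have a2 : θ * (2 * (n : ℝ)) ≤ θ * F + (v + k) := by
      have a3 : θ * (2 * (n : ℝ)) ≤ θ * (F + v + k) := mul_le_mul_of_nonneg_left e2 hθ.le
      have a4 : θ * ((v : ℝ) + k) ≤ 1 * ((v : ℝ) + k) :=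
        mul_le_mul_of_nonneg_right (by linarith) (by positivity)
      linarith
    constructor <;> linarith
  have hln : (l : ℝ) ≤ δ' * n := by linarith
  obtain ⟨-, Hl⟩ := H n g l hnM hgn hln
  rw [hml, mul_pow] at Hl
  have hn0 := rn_nn n g
  have hm0 := rn_nn m g
  -- powers
  have p1 : √(yy x) ^ v * √(yy x) ^ k₀ ≤ yy x ^ l := by
    have q1 : yy x ^ l = √(yy x) ^ (2 * l) := by
      rw [pow_mul, Real.sq_sqrt hy0.le]
    rw [q1, ← pow_add]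
    exact pow_le_pow_of_le_one hs0.le hs1 (by omega)
  have p2 : exp (-(2 * ε)) ^ l = exp (-(2 * ε * l)) := by
    rw [← Real.exp_nat_mul]
    congr 1
    ring
  rw [p2] at Hl
  have p3 : exp (2 * ε * l) ≤ exp (ε * k₀) * exp (ε * v) := by
    rw [← Real.exp_add]
    refine Real.exp_le_exp.2 ?_
    have : ε * (2 * l) ≤ ε * (v + k₀) := mul_le_mul_of_nonneg_left (by linarith) hε.le
    linarith
  have p4 : exp (2 * ε * l) * exp (-(2 * ε * l)) = 1 := by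
    rw [← Real.exp_add]
    simp
  have hk' : 0 < √(yy x) ^ k₀ := pow_pos hs0 _
  rw [← hn, ← hm]
  have p5 : yy x ^ l * SST.nu n g ≤ exp (2 * ε * l) * SST.nu m g := by
    have q := mul_le_mul_of_nonneg_left Hl (Real.exp_pos (2 * ε * l)).le
    calc yy x ^ l * SST.nu n g = (exp (2 * ε * l) * exp (-(2 * ε * l))) * (yy x ^ l * SST.nu n g) := by
          rw [p4, one_mul]
      _ = exp (2 * ε * l) * (yy x ^ l * exp (-(2 * ε * l)) * SST.nu n g) := by ring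
      _ ≤ exp (2 * ε * l) * SST.nu m g := q
  have p6 : √(yy x) ^ k₀ * (√(yy x) ^ v * SST.nu n g) ≤ exp (ε * k₀) * exp (ε * v) * SST.nu m g := by
    calc √(yy x) ^ k₀ * (√(yy x) ^ v * SST.nu n g) = (√(yy x) ^ v * √(yy x) ^ k₀) * SST.nu n g := by ring
      _ ≤ yy x ^ l * SST.nu n g := mul_le_mul_of_nonneg_right p1 hn0
      _ ≤ exp (2 * ε * l) * SST.nu m g := p5
      _ ≤ exp (ε * k₀) * exp (ε * v) * SST.nu m g := mul_le_mul_of_nonneg_right p3 hm0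
  calc √(yy x) ^ v * SST.nu n g = (√(yy x) ^ k₀)⁻¹ * (√(yy x) ^ k₀ * (√(yy x) ^ v * SST.nu n g)) := by
        rw [← mul_assoc, inv_mul_cancel₀ hk'.ne', one_mul]
    _ ≤ (√(yy x) ^ k₀)⁻¹ * (exp (ε * k₀) * exp (ε * v) * SST.nu m g) :=
        mul_le_mul_of_nonneg_left p6 (inv_pos.2 hk').le
    _ = (√(yy x) ^ k₀)⁻¹ * exp (ε * k₀) * exp (ε * v) * SST.nu m g := by ring

theorem nu_gen (h : Par θ x) (j : ℕ) : ∃ (K δ : ℝ) (M : ℕ), 0 < K ∧ 0 < δ ∧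
    ∀ F g : ℕ, M ≤ F → |2 * (g : ℝ) - θ * F| ≤ δ * F →
      (F : ℝ) ^ (2 * j) * SST.nu ((F + 1) / 2) (g - j) ≤ K * SST.nu ((F + 1) / 2) g := by
  have hθ := h.1
  have hθ1 := h.2.1
  have hchi : 0 ≤ 4 / 9 * sinh x ^ 2 * (cosh x ^ 2 + 2) ^ 2 / cosh x ^ 2 := by positivity
  obtain ⟨χ, hχ⟩ : ∃ χ : ℝ, χ = 4 / 9 * sinh x ^ 2 * (cosh x ^ 2 + 2) ^ 2 / cosh x ^ 2 := ⟨_, rfl⟩
  rw [← hχ] at hchi
  have hev : ∀ᶠ p in SYS.RB.Fth θ, (p.1 : ℝ) ^ 2 * SST.nu p.1 (p.2 - 1) ≤ (χ + 1) * SST.nu p.1 p.2 := by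
    have h1 : ∀ᶠ p in SYS.RB.Fth θ, |(p.1 : ℝ) ^ 2 * SST.nu p.1 (p.2 - 1) / SST.nu p.1 p.2 - χ| < 1 := by
      have h2 := SYS.RB.rat_g h
      rw [← hχ] at h2
      have h3 := Metric.tendsto_nhds.1 h2 1 one_pos
      simp only [Real.dist_eq] at h3
      exact h3
    obtain ⟨δ, hδ, n0, h2⟩ := SYS.RB.rat_eps h (ε := 1) one_pos
    have h3 : ∀ᶠ p in SYS.RB.Fth θ, 0 < SST.nu p.1 p.2 :=
      SYS.RB.Fth_ev.2 ⟨δ, hδ, n0, fun n hn g hg => (h2 n hn g hg).1⟩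
    filter_upwards [h1, h3] with p h1 h3
    rw [← div_le_iff₀ h3]
    have := (abs_lt.1 h1).2
    linarith
  obtain ⟨δ1, hδ1, n1, H⟩ := SYS.RB.Fth_ev.1 hev
  refine ⟨4 ^ j * (χ + 1) ^ j, δ1 / 2, max (2 * n1 + 1) (⌈8 * ((j : ℝ) + 1) / δ1⌉₊ + 1), by positivity, by positivity, ?_⟩
  intro F g hF hg
  obtain ⟨n, hn⟩ : ∃ n, n = (F + 1) / 2 := ⟨_, rfl⟩
  rw [← hn]
  have hF1 : 2 * n1 + 1 ≤ F := (le_max_left _ _).trans hF
  have hF2 : ⌈8 * ((j : ℝ) + 1) / δ1⌉₊ + 1 ≤ F := (le_max_right _ _).trans hF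
  have hF3 : 8 * ((j : ℝ) + 1) < δ1 * F := by
    have h1 : 8 * ((j : ℝ) + 1) / δ1 ≤ (⌈8 * ((j : ℝ) + 1) / δ1⌉₊ : ℝ) := Nat.le_ceil _
    have h2 : (⌈8 * ((j : ℝ) + 1) / δ1⌉₊ : ℝ) + 1 ≤ F := by exact_mod_cast hF2
    have h3 : 8 * ((j : ℝ) + 1) / δ1 < F := by linarith
    rw [div_lt_iff₀ hδ1] at h3
    linarith
  have hn1 : n1 ≤ n := by omega
  have hnpos : 0 < n := by omega
  have hnr : (0 : ℝ) < n := by exact_mod_cast hnpos
  have e1 : (F : ℝ) ≤ 2 * n := by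
    have : F ≤ 2 * n := by omega
    exact_mod_cast this
  have e2 : 2 * (n : ℝ) ≤ F + 1 := by
    have : 2 * n ≤ F + 1 := by omega
    exact_mod_cast this
  have hχ0 : 0 ≤ χ + 1 := by linarith
  have key : ∀ i : ℕ, i ≤ j → (n : ℝ) ^ (2 * i) * SST.nu n (g - i) ≤ (χ + 1) ^ i * SST.nu n g := by
    intro i
    induction i with
    | zero =>
      intro _
      simp
    | succ i ih =>
      intro hi
      have ih' := ih (by omega)
      have hir : (i : ℝ) ≤ j := by exact_mod_cast (by omega : i ≤ j)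
      have hwin : |((g - i : ℕ) : ℝ) / n - θ| < δ1 := by
        have h1 : ((g - i : ℕ) : ℝ) / n - θ = (((g - i : ℕ) : ℝ) - θ * n) / n := by
          field_simp
        rw [h1, abs_div, abs_of_pos hnr, div_lt_iff₀ hnr]
        have h2 : ((g - i : ℕ) : ℝ) ≤ g := by exact_mod_cast Nat.sub_le g i
        have h3 : (g : ℝ) - i ≤ ((g - i : ℕ) : ℝ) := by
          have h4 : g ≤ (g - i) + i := by omega
          have h5 : (g : ℝ) ≤ ((g - i : ℕ) : ℝ) + i := by exact_mod_cast h4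
          linarith
        have hd : δ1 * (F : ℝ) ≤ δ1 * (2 * n) := mul_le_mul_of_nonneg_left e1 hδ1.le
        have t1 : θ * (F : ℝ) ≤ θ * (2 * n) := mul_le_mul_of_nonneg_left e1 hθ.le
        have t2 : θ * (2 * (n : ℝ)) ≤ θ * (F + 1) := mul_le_mul_of_nonneg_left e2 hθ.le
        rw [abs_le] at hg
        rw [abs_lt]
        constructor <;> linarith
      have h1 := H n hn1 (g - i) hwin
      have h2 : g - (i + 1) = g - i - 1 := by omega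
      rw [h2]
      have h3 : (n : ℝ) ^ 2 * SST.nu n (g - i - 1) ≤ (χ + 1) * SST.nu n (g - i) := h1
      calc (n : ℝ) ^ (2 * (i + 1)) * SST.nu n (g - i - 1)
          = (n : ℝ) ^ (2 * i) * ((n : ℝ) ^ 2 * SST.nu n (g - i - 1)) := by ring
        _ ≤ (n : ℝ) ^ (2 * i) * ((χ + 1) * SST.nu n (g - i)) := mul_le_mul_of_nonneg_left h3 (by positivity)
        _ = (χ + 1) * ((n : ℝ) ^ (2 * i) * SST.nu n (g - i)) := by ring
        _ ≤ (χ + 1) * ((χ + 1) ^ i * SST.nu n g) := mul_le_mul_of_nonneg_left ih' hχ0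
        _ = (χ + 1) ^ (i + 1) * SST.nu n g := by ring
  have hk := key j le_rfl
  have hFn : (F : ℝ) ^ (2 * j) ≤ 4 ^ j * (n : ℝ) ^ (2 * j) := by
    calc (F : ℝ) ^ (2 * j) ≤ (2 * (n : ℝ)) ^ (2 * j) := pow_le_pow_left₀ (Nat.cast_nonneg F) e1 _
      _ = 4 ^ j * (n : ℝ) ^ (2 * j) := by
          rw [mul_pow, pow_mul (2 : ℝ) 2 j]
          norm_num
  calc (F : ℝ) ^ (2 * j) * SST.nu n (g - j) ≤ 4 ^ j * (n : ℝ) ^ (2 * j) * SST.nu n (g - j) :=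
        mul_le_mul_of_nonneg_right hFn (rn_nn _ _)
    _ = 4 ^ j * ((n : ℝ) ^ (2 * j) * SST.nu n (g - j)) := by ring
    _ ≤ 4 ^ j * ((χ + 1) ^ j * SST.nu n g) := mul_le_mul_of_nonneg_left hk (by positivity)
    _ = 4 ^ j * (χ + 1) ^ j * SST.nu n g := by ring

end SYS.Num
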