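import Pool.Agent.SYS.SH.HpL
import Pool.Agent.SYS.SH.Rn
import Pool.Agent.SYS.SP.Fin

/-!
# SYS-SH-Thr: two hidden components, all holes of perimeter 3

Notation `k₁, k₂ ≥ 1` holes, `F` triangles; `LL a (replicate k₁ 3) (replicate k₂ 3) F g`.
PROOF.  `UBC`: for `f ∈ antidiagonal F`: `muG (replicate k₁ 3) f.1 e.1 ≤ (3 (f.1 + 3 k₁))^k₁ nu ((f.1 + 3 k₁)/2) e.1`, and it is `0` unless `f.1 + 3 k₁` is even (`muG_odd`); the same for `2`.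
Put `i = (f.1 + 3 k₁)/2 ≥ 2`, `j = (f.2 + 3 k₂)/2 ≥ 2`, `i + j = n := (F + 3 k₁ + 3 k₂)/2`; `f ↦ (i + 1, j + 1) ∈ antidiagonal (n + 2)` is injective on the even `f`.  With `tt (i+1) e = (3i+2)(6i) nu i e`
(`tt_succ`) the term is `≤ C i^k₁ j^k₂ nu i e.1 nu j e.2 ≤ C (i^k₁/i²)(j^k₂/j²) tt (i+1) e.1 tt (j+1) e.2`.
Let `N = n + 2`, `c` from `sepb`, `h₁ := (a + 2 - k₁)/2` (least `e.1` with `a + 1 ≤ k₁ + 2 e.1`), `h₂` similarly, `y := tt N g`.  For terms with `i ≤ j` (so `j ≥ N/4`):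
`i^k₁/i² ≤ i^k₁ ≤ C exp (c i)`, `j^k₂/j² ≤ 16 N^k₂/N²`.  (A) `e.2 ≥ h₁`: the sum is `≤ C N^k₂/N² * SB c h₁ N g ≤ C N^(k₂ - 2 - 2 h₁) y` (`sepb` with `m = h₁`), and `2 h₁ ≥ a + 1 - k₁`.
(B) `e.2 < h₁`: then `e.1 > g - h₁` and the term vanishes unless `i + 1 ≥ 2 e.1` (`tt_eq_zero`), so `min (i+1) (j+1) ≥ 2 (g - h₁) ≥ θ N/4`: the terms are `≤ N^(k₁+k₂) exp (-(c/2) θ N/4) *` (terms of `SB c 0 N g` with
half of the weight left) : total `≤ N^(k₁+k₂) exp (-c θ N/8) C y`, which is smaller than every power of `N`.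
Terms with `i > j`: symmetric with `h₂` (`LL_comm` or the same computation).
Total: `N^(a+1) LL ≤ C N^(k₁+k₂) * y/N²` and `y = tt N g ≤ C N² nu (N-1) g ≤ C' N² nu n g` (`N - 1 = n + 1`; one more step by `rat_eps`), `N ≤ 2 F` for large `F`.
The window: `sepb` is an eventual statement along `Fth θ` at `(N, g)`; `Fth_ev` turns it into `N ≥ n0`, `|g/N - θ| < δ'`, which follows from `|2 g - θ F| ≤ δ F`, `F ≥ M`, `|N - F/2| ≤ 3 k₀ + 3`.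
-/

namespace SYS.Num

open Finset Real

variable {θ x : ℝ}

open SYS.RB SYS.SP

private noncomputable def ww (k u e : ℕ) : ℝ := (u : ℝ) ^ k / (u : ℝ) ^ 2 * tt u e

private theorem ww_nn (k u e : ℕ) : 0 ≤ ww k u e :=
  mul_nonneg (by positivity) (tt_nn _ _)

private noncomputable def tm (a k₁ k₂ : ℕ) (P q : ℕ × ℕ) : ℝ :=
  if a + 1 ≤ k₁ + 2 * q.1 ∧ a + 1 ≤ k₂ + 2 * q.2 then ww k₁ P.1 q.1 * ww k₂ P.2 q.2 else 0

private noncomputable def ee (c : ℝ) (m : ℕ) (P q : ℕ × ℕ) : ℝ :=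
  if m ≤ q.1 ∧ m ≤ q.2 then exp (c * min (P.1 : ℝ) P.2) * (tt P.1 q.1 * tt P.2 q.2) else 0

private theorem ee_nn (c : ℝ) (m : ℕ) (P q : ℕ × ℕ) : 0 ≤ ee c m P q := by
  unfold ee
  split_ifs
  · exact mul_nonneg (exp_pos _).le (mul_nonneg (tt_nn _ _) (tt_nn _ _))
  · exact le_rfl

private theorem ee_swap (c : ℝ) (m : ℕ) (u v e1 e2 : ℕ) :
    ee c m (v, u) (e2, e1) = ee c m (u, v) (e1, e2) := by
  unfold ee
  dsimp only
  by_cases hh : m ≤ e1 ∧ m ≤ e2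
  · rw [if_pos hh, if_pos ⟨hh.2, hh.1⟩, min_comm, mul_comm (tt v e2)]
  · rw [if_neg hh, if_neg fun h' => hh ⟨h'.2, h'.1⟩]

private theorem tm_nn (a k₁ k₂ : ℕ) (P q : ℕ × ℕ) : 0 ≤ tm a k₁ k₂ P q := by
  unfold tm
  split_ifs
  · exact mul_nonneg (ww_nn _ _ _) (ww_nn _ _ _)
  · exact le_rfl

private theorem mu_le (k : ℕ) (hk : 1 ≤ k) (f e : ℕ) (hev : Even (f + 3 * k)) :
    muG (Multiset.replicate k 3) f e ≤ 6 ^ k * ww k ((f + 3 * k) / 2 + 1) e := by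
  obtain ⟨i, hi⟩ := hev
  have hs : (Multiset.replicate k 3).sum = 3 * k := by
    rw [Multiset.sum_replicate, smul_eq_mul, mul_comm]
  have h1 := UBC (Multiset.replicate k 3)
    (fun p hp => by rw [Multiset.eq_of_mem_replicate hp]; norm_num) f e (by omega)
  rw [hs, Multiset.card_replicate] at h1
  have e1 : (f + 3 * k) / 2 = i := by omega
  have hi1 : 1 ≤ i := by omega
  rw [e1] at h1 ⊢
  rw [hi] at h1
  refine h1.trans ?_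
  unfold ww
  rw [tt_succ hi1]
  have hnu := nu_nn i e
  have hir : (1 : ℝ) ≤ i := by exact_mod_cast hi1
  have h2 : (i : ℝ) ^ k ≤ ((i + 1 : ℕ) : ℝ) ^ k := by
    refine pow_le_pow_left₀ (by linarith) ?_ k
    push_cast
    linarith
  have h3 : 1 ≤ (3 * (i : ℝ) + 2) * (6 * i) / ((i + 1 : ℕ) : ℝ) ^ 2 := by
    rw [le_div_iff₀ (by positivity)]
    push_cast
    nlinarith
  have e2 : (3 * ((i + i : ℕ) : ℝ)) ^ k = 6 ^ k * (i : ℝ) ^ k := by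
    rw [← mul_pow]
    congr 1
    push_cast
    ring
  rw [e2]
  calc 6 ^ k * (i : ℝ) ^ k * SST.nu i e = 6 ^ k * ((i : ℝ) ^ k * (1 * SST.nu i e)) := by ring
    _ ≤ 6 ^ k * (((i + 1 : ℕ) : ℝ) ^ k *
        ((3 * (i : ℝ) + 2) * (6 * i) / ((i + 1 : ℕ) : ℝ) ^ 2 * SST.nu i e)) := by
      refine mul_le_mul_of_nonneg_left ?_ (by positivity)
      refine mul_le_mul h2 (mul_le_mul_of_nonneg_right h3 hnu) (by rw [one_mul]; exact hnu)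
        (by positivity)
    _ = _ := by ring

private theorem LL_le (a k₁ k₂ : ℕ) (hk₁ : 1 ≤ k₁) (hk₂ : 1 ≤ k₂) (F g : ℕ) :
    LL a (Multiset.replicate k₁ 3) (Multiset.replicate k₂ 3) F g ≤
      6 ^ (k₁ + k₂) * ∑ P ∈ antidiagonal ((F + 3 * k₁ + 3 * k₂) / 2 + 2),
        ∑ q ∈ antidiagonal g, tm a k₁ k₂ P q := by
  classical
  unfold LL
  simp only [Multiset.card_replicate]
  obtain ⟨G, hG⟩ : ∃ G : ℕ × ℕ → ℝ, G = fun f => ∑ e ∈ antidiagonal g,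
    if a + 1 ≤ k₁ + 2 * e.1 ∧ a + 1 ≤ k₂ + 2 * e.2 then
      muG (Multiset.replicate k₁ 3) f.1 e.1 * muG (Multiset.replicate k₂ 3) f.2 e.2 else 0 :=
    ⟨_, rfl⟩
  obtain ⟨H, hH⟩ : ∃ H : ℕ × ℕ → ℝ, H = fun P => 6 ^ (k₁ + k₂) *
    ∑ q ∈ antidiagonal g, tm a k₁ k₂ P q := ⟨_, rfl⟩
  obtain ⟨φ, hφ⟩ : ∃ φ : ℕ × ℕ → ℕ × ℕ,
    φ = fun f => ((f.1 + 3 * k₁) / 2 + 1, (f.2 + 3 * k₂) / 2 + 1) := ⟨_, rfl⟩
  have hs : ∀ k, (Multiset.replicate k 3).sum = 3 * k := fun k => by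
    rw [Multiset.sum_replicate, smul_eq_mul, mul_comm]
  have h1 : ∀ f : ℕ × ℕ, ¬ (Even (f.1 + 3 * k₁) ∧ Even (f.2 + 3 * k₂)) → G f = 0 := by
    intro f hf
    rw [hG]
    refine Finset.sum_eq_zero fun e _ => ?_
    rw [not_and_or] at hf
    rcases hf with hf | hf
    · rw [muG_odd (P := Multiset.replicate k₁ 3) (by rw [hs]; exact hf), zero_mul, ite_self]
    · rw [muG_odd (P := Multiset.replicate k₂ 3) (by rw [hs]; exact hf), mul_zero, ite_self]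
  have h2 : ∀ f : ℕ × ℕ, (Even (f.1 + 3 * k₁) ∧ Even (f.2 + 3 * k₂)) → G f ≤ H (φ f) := by
    intro f hf
    rw [hG, hH, hφ]
    dsimp only
    rw [Finset.mul_sum]
    refine Finset.sum_le_sum fun e _ => ?_
    unfold tm
    split_ifs with hc
    · have a1 := mu_le k₁ hk₁ f.1 e.1 hf.1
      have a2 := mu_le k₂ hk₂ f.2 e.2 hf.2
      calc muG (Multiset.replicate k₁ 3) f.1 e.1 * muG (Multiset.replicate k₂ 3) f.2 e.2
          ≤ (6 ^ k₁ * ww k₁ ((f.1 + 3 * k₁) / 2 + 1) e.1) *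
            (6 ^ k₂ * ww k₂ ((f.2 + 3 * k₂) / 2 + 1) e.2) :=
            mul_le_mul a1 a2 (muG_nonneg _ _ _) (mul_nonneg (by positivity) (ww_nn _ _ _))
        _ = _ := by rw [pow_add]; ring
    · rw [mul_zero]
  have hHn : ∀ P, 0 ≤ H P := fun P => by
    rw [hH]
    exact mul_nonneg (by positivity) (Finset.sum_nonneg fun q _ => tm_nn _ _ _ _ _)
  have e1 : (∑ f ∈ antidiagonal F, G f) =
      ∑ f ∈ (antidiagonal F).filter (fun f => Even (f.1 + 3 * k₁) ∧ Even (f.2 + 3 * k₂)), G f := by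
    rw [Finset.sum_filter]
    refine Finset.sum_congr rfl fun f _ => ?_
    split_ifs with hc
    · rfl
    · exact h1 f hc
  have e2 : (6 : ℝ) ^ (k₁ + k₂) * ∑ P ∈ antidiagonal ((F + 3 * k₁ + 3 * k₂) / 2 + 2),
        ∑ q ∈ antidiagonal g, tm a k₁ k₂ P q =
      ∑ P ∈ antidiagonal ((F + 3 * k₁ + 3 * k₂) / 2 + 2), H P := by
    rw [hH, Finset.mul_sum]
  rw [e2]
  have e0 : (∑ f ∈ antidiagonal F, ∑ e ∈ antidiagonal g,
    if a + 1 ≤ k₁ + 2 * e.1 ∧ a + 1 ≤ k₂ + 2 * e.2 then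
      muG (Multiset.replicate k₁ 3) f.1 e.1 * muG (Multiset.replicate k₂ 3) f.2 e.2 else 0) =
      ∑ f ∈ antidiagonal F, G f := by rw [hG]
  rw [e0, e1]
  refine (Finset.sum_le_sum fun f hf => h2 f (Finset.mem_filter.1 hf).2).trans ?_
  rw [← Finset.sum_image (f := H) (g := φ)
    (s := (antidiagonal F).filter (fun f => Even (f.1 + 3 * k₁) ∧ Even (f.2 + 3 * k₂)))]
  · refine Finset.sum_le_sum_of_subset_of_nonneg ?_ fun P _ _ => hHn P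
    intro P hP
    obtain ⟨f, hf, rfl⟩ := Finset.mem_image.1 hP
    obtain ⟨hf1, ⟨i, hi⟩, ⟨j, hj⟩⟩ := Finset.mem_filter.1 hf
    rw [Finset.HasAntidiagonal.mem_antidiagonal] at hf1 ⊢
    rw [hφ]
    dsimp only
    omega
  · intro f hf f' hf' he
    obtain ⟨hf1, ⟨i, hi⟩, ⟨j, hj⟩⟩ := Finset.mem_filter.1 hf
    obtain ⟨hf2, ⟨i', hi'⟩, ⟨j', hj'⟩⟩ := Finset.mem_filter.1 hf'
    rw [hφ] at he
    simp only [Prod.mk.injEq] at he
    refine Prod.ext ?_ ?_ <;> omega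

private theorem half {a k₁ k₂ h N u v e1 e2 g : ℕ} {c C₁ θ : ℝ} (hc : 0 < c)
    (hC : ∀ u : ℕ, (u : ℝ) ^ k₁ ≤ C₁ * exp (c * u)) (hN : 1 ≤ N) (huv : u + v = N)
    (hg : e1 + e2 = g) (hle : u ≤ v) (he1 : h ≤ e1) (ha : a + 1 ≤ k₁ + 2 * h)
    (hwin : θ * N + 2 * h ≤ 2 * (g : ℝ)) (hexp : (N : ℝ) ^ (a + 3) ≤ exp (c * (θ * N))) :
    (N : ℝ) ^ (a + 3) * (ww k₁ u e1 * ww k₂ v e2) ≤
      (4 * C₁ + 1) * (N : ℝ) ^ (k₁ + k₂) *
        ((N : ℝ) ^ (2 * h) * ee c h (u, v) (e1, e2) + ee c 0 (u, v) (e1, e2)) := by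
  have hNr : (1 : ℝ) ≤ N := by exact_mod_cast hN
  have hC1 : 0 ≤ C₁ := by
    have h1 := hC 1
    rw [Nat.cast_one, one_pow] at h1
    by_contra hneg
    have : C₁ * exp (c * 1) < 0 := mul_neg_of_neg_of_pos (not_le.1 hneg) (exp_pos _)
    linarith
  have hur : (u : ℝ) ≤ N := by exact_mod_cast (by omega : u ≤ N)
  have hvr : (v : ℝ) ≤ N := by exact_mod_cast (by omega : v ≤ N)
  have hu0 : (0 : ℝ) ≤ u := Nat.cast_nonneg _
  have hv0 : (0 : ℝ) ≤ v := Nat.cast_nonneg _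
  have hmin : min (u : ℝ) v = u := min_eq_left (by exact_mod_cast hle)
  have hTT : 0 ≤ tt u e1 * tt v e2 := mul_nonneg (tt_nn _ _) (tt_nn _ _)
  have hdiv : ∀ (w k : ℕ), (w : ℝ) ^ k / (w : ℝ) ^ 2 ≤ (w : ℝ) ^ k := by
    intro w k
    rcases Nat.eq_zero_or_pos w with hw | hw
    · subst hw
      rw [Nat.cast_zero, zero_pow two_ne_zero, div_zero]
      positivity
    · have hw1 : (1 : ℝ) ≤ w := by exact_mod_cast hw
      exact div_le_self (by positivity) (one_le_pow₀ hw1)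
  have hT0 : ee c 0 (u, v) (e1, e2) = exp (c * u) * (tt u e1 * tt v e2) := by
    unfold ee
    dsimp only
    rw [if_pos ⟨Nat.zero_le _, Nat.zero_le _⟩, hmin]
  have hE0 := ee_nn c 0 (u, v) (e1, e2)
  have hEh := ee_nn c h (u, v) (e1, e2)
  have hNk : (0 : ℝ) ≤ (N : ℝ) ^ (k₁ + k₂) := by positivity
  by_cases hh : h ≤ e2
  · have hTh : ee c h (u, v) (e1, e2) = exp (c * u) * (tt u e1 * tt v e2) := by
      unfold ee
      dsimp only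
      rw [if_pos ⟨he1, hh⟩, hmin]
    have b1 : (u : ℝ) ^ k₁ / (u : ℝ) ^ 2 ≤ C₁ * exp (c * u) := (hdiv u k₁).trans (hC u)
    have hv2 : (N : ℝ) ≤ 2 * v := by exact_mod_cast (by omega : N ≤ 2 * v)
    have hvp : (0 : ℝ) < v := by linarith
    have b2 : (N : ℝ) ^ 2 * ((v : ℝ) ^ k₂ / (v : ℝ) ^ 2) ≤ 4 * (N : ℝ) ^ k₂ := by
      have h1 : (N : ℝ) ^ 2 / (v : ℝ) ^ 2 ≤ 4 := by
        rw [div_le_iff₀ (by positivity)]
        nlinarith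
      calc (N : ℝ) ^ 2 * ((v : ℝ) ^ k₂ / (v : ℝ) ^ 2) = (N : ℝ) ^ 2 / (v : ℝ) ^ 2 * (v : ℝ) ^ k₂ := by
            ring
        _ ≤ 4 * (N : ℝ) ^ k₂ := mul_le_mul h1 (pow_le_pow_left₀ hv0 hvr _) (by positivity)
            (by norm_num)
    have b3 : (N : ℝ) ^ (a + 1) ≤ (N : ℝ) ^ (k₁ + 2 * h) := pow_le_pow_right₀ hNr ha
    calc (N : ℝ) ^ (a + 3) * (ww k₁ u e1 * ww k₂ v e2)
        = (N : ℝ) ^ (a + 1) * (((u : ℝ) ^ k₁ / (u : ℝ) ^ 2) *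
          ((N : ℝ) ^ 2 * ((v : ℝ) ^ k₂ / (v : ℝ) ^ 2))) * (tt u e1 * tt v e2) := by
          unfold ww
          ring
      _ ≤ (N : ℝ) ^ (k₁ + 2 * h) * ((C₁ * exp (c * u)) * (4 * (N : ℝ) ^ k₂)) *
          (tt u e1 * tt v e2) := by
          refine mul_le_mul_of_nonneg_right ?_ hTT
          refine mul_le_mul b3 ?_ (by positivity) (by positivity)
          exact mul_le_mul b1 b2 (by positivity) (mul_nonneg hC1 (exp_pos _).le)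
      _ = 4 * C₁ * (N : ℝ) ^ (k₁ + k₂) * ((N : ℝ) ^ (2 * h) * ee c h (u, v) (e1, e2)) := by
          rw [hTh, pow_add, pow_add]
          ring
      _ ≤ _ := by
          have h1 : 0 ≤ (N : ℝ) ^ (2 * h) * ee c h (u, v) (e1, e2) := mul_nonneg (by positivity) hEh
          have h2 : 4 * C₁ * (N : ℝ) ^ (k₁ + k₂) ≤ (4 * C₁ + 1) * (N : ℝ) ^ (k₁ + k₂) :=
            mul_le_mul_of_nonneg_right (by linarith) hNk
          exact mul_le_mul h2 (by linarith) h1 (mul_nonneg (by linarith) hNk)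
  · by_cases hz : u < 2 * e1
    · have h0 : ww k₁ u e1 = 0 := by
        unfold ww
        rw [tt_eq_zero hz, mul_zero]
      rw [h0, zero_mul, mul_zero]
      exact mul_nonneg (mul_nonneg (by linarith) hNk)
        (add_nonneg (mul_nonneg (by positivity) hEh) hE0)
    · have h1 : 2 * g ≤ u + 2 * h := by omega
      have h2 : 2 * (g : ℝ) ≤ u + 2 * h := by exact_mod_cast h1
      have h3 : θ * N ≤ u := by linarith
      have h4 : exp (c * (θ * N)) ≤ exp (c * u) := exp_le_exp.2 (mul_le_mul_of_nonneg_left h3 hc.le)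
      have b1 : (u : ℝ) ^ k₁ / (u : ℝ) ^ 2 ≤ (N : ℝ) ^ k₁ :=
        (hdiv u k₁).trans (pow_le_pow_left₀ hu0 hur _)
      have b2 : (v : ℝ) ^ k₂ / (v : ℝ) ^ 2 ≤ (N : ℝ) ^ k₂ :=
        (hdiv v k₂).trans (pow_le_pow_left₀ hv0 hvr _)
      calc (N : ℝ) ^ (a + 3) * (ww k₁ u e1 * ww k₂ v e2)
          = (N : ℝ) ^ (a + 3) * (((u : ℝ) ^ k₁ / (u : ℝ) ^ 2) * ((v : ℝ) ^ k₂ / (v : ℝ) ^ 2)) *
            (tt u e1 * tt v e2) := by
            unfold ww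
            ring
        _ ≤ exp (c * u) * ((N : ℝ) ^ k₁ * (N : ℝ) ^ k₂) * (tt u e1 * tt v e2) := by
            refine mul_le_mul_of_nonneg_right ?_ hTT
            refine mul_le_mul (hexp.trans h4) ?_ (by positivity) (exp_pos _).le
            exact mul_le_mul b1 b2 (by positivity) (by positivity)
        _ = (N : ℝ) ^ (k₁ + k₂) * ee c 0 (u, v) (e1, e2) := by
            rw [hT0, pow_add]
            ring
        _ ≤ _ := by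
            have h5 : (N : ℝ) ^ (k₁ + k₂) ≤ (4 * C₁ + 1) * (N : ℝ) ^ (k₁ + k₂) :=
              le_mul_of_one_le_left hNk (by linarith)
            refine mul_le_mul h5 ?_ hE0 (mul_nonneg (by linarith) hNk)
            have h6 : 0 ≤ (N : ℝ) ^ (2 * h) * ee c h (u, v) (e1, e2) :=
              mul_nonneg (by positivity) hEh
            linarith

private theorem pow_le_ex {c : ℝ} (hc : 0 < c) (k : ℕ) :
    ∃ C : ℝ, 0 < C ∧ ∀ u : ℕ, (u : ℝ) ^ k ≤ C * exp (c * u) := by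
  refine ⟨(k.factorial : ℝ) / c ^ k, by positivity, fun u => ?_⟩
  have h1 := Real.pow_div_factorial_le_exp (c * u) (by positivity) k
  have h2 : (0 : ℝ) < k.factorial := by positivity
  rw [div_le_iff₀ h2, mul_pow] at h1
  rw [div_mul_eq_mul_div, le_div_iff₀ (by positivity)]
  linarith

private theorem main_ev (h : Par θ x) (a k₁ k₂ : ℕ) : ∃ C : ℝ, 0 < C ∧
    ∀ᶠ p in RB.Fth θ, (p.1 : ℝ) ^ (a + 3) *
      ∑ P ∈ antidiagonal p.1, ∑ q ∈ antidiagonal p.2, tm a k₁ k₂ P q ≤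
        C * (p.1 : ℝ) ^ (k₁ + k₂) * tt p.1 p.2 := by
  obtain ⟨c, hc, hsep⟩ := sepb h
  obtain ⟨C₁, hC₁, hp1⟩ := pow_le_ex hc k₁
  obtain ⟨C₂, hC₂, hp2⟩ := pow_le_ex hc k₂
  obtain ⟨h₁, hh₁⟩ : ∃ h₁ : ℕ, h₁ = (a + 2 - k₁) / 2 := ⟨_, rfl⟩
  obtain ⟨h₂, hh₂⟩ : ∃ h₂ : ℕ, h₂ = (a + 2 - k₂) / 2 := ⟨_, rfl⟩
  obtain ⟨D₀, hD₀, hs0⟩ := hsep 0
  obtain ⟨D₁, hD₁, hs1⟩ := hsep h₁
  obtain ⟨D₂, hD₂, hs2⟩ := hsep h₂
  obtain ⟨B, hB⟩ : ∃ B : ℝ, B = 4 * C₁ + 1 + (4 * C₂ + 1) := ⟨_, rfl⟩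
  have hB0 : 0 < B := by rw [hB]; linarith
  have hθ : 0 < θ := h.1
  refine ⟨B * (D₁ + D₂ + D₀), by positivity, ?_⟩
  have hlim := (div_lim θ).eventually_const_lt (show θ / 2 < θ by linarith)
  have hexp : ∀ᶠ p in RB.Fth θ, ((p : ℕ × ℕ).1 : ℝ) ^ (a + 3) ≤ exp (c * (θ / 2 * p.1)) := by
    have h1 : Filter.Tendsto (fun p : ℕ × ℕ => c * θ / 2 * (p.1 : ℝ)) (RB.Fth θ) Filter.atTop :=
      (fst_atTop θ).const_mul_atTop (by positivity)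
    have h2 := ((Real.tendsto_pow_mul_exp_neg_atTop_nhds_zero (a + 3)).comp h1).const_mul
      (1 / (c * θ / 2) ^ (a + 3))
    rw [mul_zero] at h2
    filter_upwards [h2.eventually_le_const one_pos] with p hp
    have hb : 0 < c * θ / 2 := by positivity
    have e1 : 1 / (c * θ / 2) ^ (a + 3) * ((c * θ / 2 * (p.1 : ℝ)) ^ (a + 3) *
        exp (-(c * θ / 2 * (p.1 : ℝ)))) = (p.1 : ℝ) ^ (a + 3) * exp (-(c * θ / 2 * (p.1 : ℝ))) := by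
      rw [mul_pow]
      field_simp
    have h3 : (p.1 : ℝ) ^ (a + 3) * exp (-(c * θ / 2 * (p.1 : ℝ))) ≤ 1 := by
      rw [← e1]
      exact hp
    rw [exp_neg, ← div_eq_mul_inv, div_le_iff₀ (exp_pos _), one_mul] at h3
    refine h3.trans (le_of_eq ?_)
    congr 1
    ring
  have hbig : ∀ᶠ p in RB.Fth θ, (2 * ((h₁ : ℝ) + h₂)) ≤ θ / 2 * ((p : ℕ × ℕ).1 : ℝ) :=
    ((fst_atTop θ).const_mul_atTop (by positivity : 0 < θ / 2)).eventually_ge_atTop _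
  filter_upwards [hs0, hs1, hs2, ge_ev θ 1, hlim, hexp, hbig] with p s0 s1 s2 hN hl hx hbg
  obtain ⟨N, g⟩ := p
  dsimp only at s0 s1 s2 hN hl hx hbg ⊢
  have hNr : (1 : ℝ) ≤ N := by exact_mod_cast hN
  have hN0 : (0 : ℝ) < N := by linarith
  rw [lt_div_iff₀ hN0] at hl
  have hwin : ∀ h' : ℕ, (h' : ℝ) ≤ h₁ + h₂ → θ / 2 * N + 2 * h' ≤ 2 * (g : ℝ) := by
    intro h' hh'
    linarith
  have hw1 := hwin h₁ (by have : (0 : ℝ) ≤ h₂ := Nat.cast_nonneg _; linarith)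
  have hw2 := hwin h₂ (by have : (0 : ℝ) ≤ h₁ := Nat.cast_nonneg _; linarith)
  have hterm : ∀ P ∈ antidiagonal N, ∀ q ∈ antidiagonal g,
      (N : ℝ) ^ (a + 3) * tm a k₁ k₂ P q ≤ B * (N : ℝ) ^ (k₁ + k₂) *
        ((N : ℝ) ^ (2 * h₁) * ee c h₁ P q + (N : ℝ) ^ (2 * h₂) * ee c h₂ P q + ee c 0 P q) := by
    intro P hP q hq
    obtain ⟨u, v⟩ := P
    obtain ⟨e1, e2⟩ := q
    rw [Finset.HasAntidiagonal.mem_antidiagonal] at hP hq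
    dsimp only at hP hq
    have n0 := ee_nn c 0 (u, v) (e1, e2)
    have n1 := mul_nonneg (by positivity : (0 : ℝ) ≤ (N : ℝ) ^ (2 * h₁)) (ee_nn c h₁ (u, v) (e1, e2))
    have n2 := mul_nonneg (by positivity : (0 : ℝ) ≤ (N : ℝ) ^ (2 * h₂)) (ee_nn c h₂ (u, v) (e1, e2))
    have hNk : (0 : ℝ) ≤ (N : ℝ) ^ (k₁ + k₂) := by positivity
    unfold tm
    split_ifs with hcd
    · dsimp only at hcd ⊢
      rcases le_total u v with huv | huv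
      · have r := half (a := a) (k₁ := k₁) (k₂ := k₂) (h := h₁) (θ := θ / 2) hc hp1 hN hP hq huv
          (by omega) (by omega) hw1 hx
        refine r.trans ?_
        refine mul_le_mul ?_ (by linarith) (by linarith) (mul_nonneg hB0.le hNk)
        exact mul_le_mul_of_nonneg_right (by rw [hB]; linarith) hNk
      · have r := half (a := a) (k₁ := k₂) (k₂ := k₁) (h := h₂) (u := v) (v := u) (e1 := e2)
          (e2 := e1) (N := N) (g := g) (θ := θ / 2) hc hp2 hN (by omega) (by omega) huv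
          (by omega) (by omega) hw2 hx
        rw [ee_swap c h₂ u v e1 e2, ee_swap c 0 u v e1 e2, add_comm k₂ k₁, mul_comm (ww k₂ v e2)] at r
        refine r.trans ?_
        refine mul_le_mul ?_ (by linarith) (by linarith) (mul_nonneg hB0.le hNk)
        exact mul_le_mul_of_nonneg_right (by rw [hB]; linarith) hNk
    · rw [mul_zero]
      exact mul_nonneg (mul_nonneg hB0.le hNk) (by linarith)
  have hSB : ∀ m, SB c m N g = ∑ P ∈ antidiagonal N, ∑ q ∈ antidiagonal g, ee c m P q :=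
    fun m => rfl
  have hsum : (N : ℝ) ^ (a + 3) * ∑ P ∈ antidiagonal N, ∑ q ∈ antidiagonal g, tm a k₁ k₂ P q ≤
      B * (N : ℝ) ^ (k₁ + k₂) * ((N : ℝ) ^ (2 * h₁) * SB c h₁ N g +
        (N : ℝ) ^ (2 * h₂) * SB c h₂ N g + SB c 0 N g) := by
    rw [hSB, hSB, hSB, Finset.mul_sum]
    rw [Finset.mul_sum, Finset.mul_sum, ← Finset.sum_add_distrib, ← Finset.sum_add_distrib,
      Finset.mul_sum]
    refine Finset.sum_le_sum fun P hP => ?_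
    rw [Finset.mul_sum, Finset.mul_sum, Finset.mul_sum, ← Finset.sum_add_distrib,
      ← Finset.sum_add_distrib, Finset.mul_sum]
    exact Finset.sum_le_sum fun q hq => hterm P hP q hq
  refine hsum.trans ?_
  rw [Nat.mul_zero, pow_zero, one_mul] at s0
  have hNk : (0 : ℝ) ≤ (N : ℝ) ^ (k₁ + k₂) := by positivity
  calc B * (N : ℝ) ^ (k₁ + k₂) * ((N : ℝ) ^ (2 * h₁) * SB c h₁ N g +
        (N : ℝ) ^ (2 * h₂) * SB c h₂ N g + SB c 0 N g)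
      ≤ B * (N : ℝ) ^ (k₁ + k₂) * (D₁ * tt N g + D₂ * tt N g + D₀ * tt N g) :=
        mul_le_mul_of_nonneg_left (by linarith) (mul_nonneg hB0.le hNk)
    _ = _ := by ring

/-- window -/
private theorem win (hθ0 : 0 < θ) (hθ1 : θ < 1) (R : ℕ) {δ' : ℝ} (hδ' : 0 < δ') (n0 : ℕ) :
    ∃ (δ : ℝ) (M : ℕ), 0 < δ ∧ ∀ F g N : ℕ, M ≤ F → |2 * (g : ℝ) - θ * F| ≤ δ * F →
      F ≤ 2 * N → 2 * N ≤ F + R → n0 ≤ N ∧ |(g : ℝ) / N - θ| < δ' := by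
  refine ⟨δ' / 2, 2 * n0 + ⌈2 * (R : ℝ) / δ'⌉₊ + 1, by positivity, ?_⟩
  intro F g N hF hg h1 h2
  have hFr : ((2 * n0 + ⌈2 * (R : ℝ) / δ'⌉₊ + 1 : ℕ) : ℝ) ≤ F := by exact_mod_cast hF
  push_cast at hFr
  have hce : 2 * (R : ℝ) / δ' ≤ ⌈2 * (R : ℝ) / δ'⌉₊ := Nat.le_ceil _
  have hn0 : (0 : ℝ) ≤ n0 := Nat.cast_nonneg _
  have hR : 2 * (R : ℝ) / δ' < F := by linarith
  rw [div_lt_iff₀ hδ'] at hR
  have hF1 : (1 : ℝ) ≤ F := by
    have : (0 : ℝ) ≤ (⌈2 * (R : ℝ) / δ'⌉₊ : ℝ) := Nat.cast_nonneg _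
    linarith
  have h1r : (F : ℝ) ≤ 2 * N := by exact_mod_cast h1
  have h2r : 2 * (N : ℝ) ≤ F + R := by exact_mod_cast h2
  have hN0 : (0 : ℝ) < N := by linarith
  refine ⟨by omega, ?_⟩
  have e1 : (g : ℝ) / N - θ = (g - θ * N) / N := by
    field_simp
  rw [e1, abs_div, abs_of_pos hN0, div_lt_iff₀ hN0]
  have hR0 : (0 : ℝ) ≤ R := Nat.cast_nonneg _
  have h3 := abs_le.1 hg
  have h4 : θ * (2 * N - F) ≤ R := by
    have : θ * (2 * N - F) ≤ 1 * R := mul_le_mul hθ1.le (by linarith) (by linarith) zero_le_one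
    linarith
  have h5 : 0 ≤ θ * (2 * N - F) := mul_nonneg hθ0.le (by linarith)
  rw [abs_lt]
  constructor
  · nlinarith
  · nlinarith

theorem thr (h : Par θ x) (a k₁ k₂ : ℕ) (hk₁ : 1 ≤ k₁) (hk₂ : 1 ≤ k₂) :
    ∃ (K δ : ℝ) (M : ℕ), 0 < K ∧ 0 < δ ∧ ∀ F g : ℕ, M ≤ F → |2 * (g : ℝ) - θ * F| ≤ δ * F →
      (F : ℝ) ^ (a + 1) * LL a (Multiset.replicate k₁ 3) (Multiset.replicate k₂ 3) F g ≤
        K * (F : ℝ) ^ (k₁ + k₂) * SST.nu ((F + 3 * k₁ + 3 * k₂) / 2) g := by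
  obtain ⟨C, hC, hev⟩ := main_ev h a k₁ k₂
  obtain ⟨δ₁, hδ₁, n1, hm⟩ := Fth_ev.1 hev
  have hy : 0 < yy x := yy_pos x
  obtain ⟨δ₂, hδ₂, n2, hr⟩ := rat_eps h (half_pos hy)
  obtain ⟨δ₃, M₃, hδ₃, hw1⟩ := win h.1 (by linarith [h.2.1]) (3 * k₁ + 3 * k₂ + 4) hδ₁ n1
  obtain ⟨δ₄, M₄, hδ₄, hw2⟩ := win h.1 (by linarith [h.2.1]) (3 * k₁ + 3 * k₂ + 4) hδ₂ n2
  refine ⟨2 ^ (a + 1) * 6 ^ (k₁ + k₂) * (C * (30 * (2 / yy x))), min δ₃ δ₄,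
    M₃ + M₄ + (3 * k₁ + 3 * k₂ + 4), by positivity, lt_min hδ₃ hδ₄, ?_⟩
  intro F g hF hg
  obtain ⟨N, hN⟩ : ∃ N : ℕ, N = (F + 3 * k₁ + 3 * k₂) / 2 + 2 := ⟨_, rfl⟩
  have hF0 : (0 : ℝ) ≤ F := Nat.cast_nonneg _
  obtain ⟨hn1, hg1⟩ := hw1 F g N (by omega)
    (hg.trans (mul_le_mul_of_nonneg_right (min_le_left _ _) hF0)) (by omega) (by omega)
  obtain ⟨hn2, hg2⟩ := hw2 F g (N - 1) (by omega)
    (hg.trans (mul_le_mul_of_nonneg_right (min_le_right _ _) hF0)) (by omega) (by omega)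
  have hmm := hm N hn1 g hg1
  dsimp only at hmm
  obtain ⟨hp, hr1, -⟩ := hr (N - 1) hn2 g hg2
  have e1 : N - 1 - 1 = (F + 3 * k₁ + 3 * k₂) / 2 := by omega
  rw [e1] at hr1
  have hL := LL_le a k₁ k₂ hk₁ hk₂ F g
  rw [← hN] at hL
  obtain ⟨S, hS⟩ : ∃ S : ℝ, S = ∑ P ∈ antidiagonal N, ∑ q ∈ antidiagonal g, tm a k₁ k₂ P q :=
    ⟨_, rfl⟩
  rw [← hS] at hL hmm
  have hS0 : 0 ≤ S := by
    rw [hS]
    exact Finset.sum_nonneg fun P _ => Finset.sum_nonneg fun q _ => tm_nn _ _ _ _ _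
  obtain ⟨ν, hν⟩ : ∃ ν : ℝ, ν = SST.nu ((F + 3 * k₁ + 3 * k₂) / 2) g := ⟨_, rfl⟩
  rw [← hν] at hr1 ⊢
  have hν0 : 0 ≤ ν := by rw [hν]; exact nu_nn _ _
  have hN1 : 1 ≤ N - 1 := by omega
  have htt : tt N g = (3 * ((N - 1 : ℕ) : ℝ) + 2) * (6 * ((N - 1 : ℕ) : ℝ)) * SST.nu (N - 1) g := by
    have := tt_succ hN1 g
    rw [Nat.sub_add_cancel (by omega)] at this
    exact this
  have hNr : (2 : ℝ) ≤ N := by exact_mod_cast (by omega : 2 ≤ N)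
  have hN0 : (0 : ℝ) < N := by linarith
  have hNc : ((N - 1 : ℕ) : ℝ) = N - 1 := by rw [Nat.cast_sub (by omega), Nat.cast_one]
  have h1 : SST.nu (N - 1) g ≤ 2 / yy x * ν := by
    have e2 : yy x - yy x / 2 = yy x / 2 := by ring
    rw [e2] at hr1
    rw [div_mul_eq_mul_div, le_div_iff₀ hy]
    linarith
  have h2 : tt N g ≤ (N : ℝ) ^ 2 * (30 * (2 / yy x) * ν) := by
    rw [htt, hNc]
    have a1 : (3 * ((N : ℝ) - 1) + 2) * (6 * ((N : ℝ) - 1)) ≤ 30 * (N : ℝ) ^ 2 := by nlinarith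
    calc (3 * ((N : ℝ) - 1) + 2) * (6 * ((N : ℝ) - 1)) * SST.nu (N - 1) g
        ≤ (30 * (N : ℝ) ^ 2) * (2 / yy x * ν) := mul_le_mul a1 h1 hp.le (by positivity)
      _ = _ := by ring
  have h3 : (N : ℝ) ^ (a + 1) * S ≤ C * (N : ℝ) ^ (k₁ + k₂) * (30 * (2 / yy x) * ν) := by
    have a1 : (N : ℝ) ^ 2 * ((N : ℝ) ^ (a + 1) * S) ≤
        (N : ℝ) ^ 2 * (C * (N : ℝ) ^ (k₁ + k₂) * (30 * (2 / yy x) * ν)) := by
      calc (N : ℝ) ^ 2 * ((N : ℝ) ^ (a + 1) * S) = (N : ℝ) ^ (a + 3) * S := by ring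
        _ ≤ C * (N : ℝ) ^ (k₁ + k₂) * tt N g := hmm
        _ ≤ C * (N : ℝ) ^ (k₁ + k₂) * ((N : ℝ) ^ 2 * (30 * (2 / yy x) * ν)) :=
          mul_le_mul_of_nonneg_left h2 (by positivity)
        _ = _ := by ring
    exact le_of_mul_le_mul_left a1 (by positivity)
  have hFN : (F : ℝ) ≤ 2 * N := by exact_mod_cast (by omega : F ≤ 2 * N)
  have hNF : (N : ℝ) ≤ F := by exact_mod_cast (by omega : N ≤ F)
  have h4 : (F : ℝ) ^ (a + 1) ≤ 2 ^ (a + 1) * (N : ℝ) ^ (a + 1) := by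
    rw [← mul_pow]
    exact pow_le_pow_left₀ hF0 hFN _
  have h5 : (N : ℝ) ^ (k₁ + k₂) ≤ (F : ℝ) ^ (k₁ + k₂) := pow_le_pow_left₀ hN0.le hNF _
  calc (F : ℝ) ^ (a + 1) * LL a (Multiset.replicate k₁ 3) (Multiset.replicate k₂ 3) F g
      ≤ (2 ^ (a + 1) * (N : ℝ) ^ (a + 1)) * (6 ^ (k₁ + k₂) * S) :=
        mul_le_mul h4 hL (LL_nonneg _ _ _ _ _) (by positivity)
    _ = 2 ^ (a + 1) * 6 ^ (k₁ + k₂) * ((N : ℝ) ^ (a + 1) * S) := by ring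
    _ ≤ 2 ^ (a + 1) * 6 ^ (k₁ + k₂) * (C * (N : ℝ) ^ (k₁ + k₂) * (30 * (2 / yy x) * ν)) :=
        mul_le_mul_of_nonneg_left h3 (by positivity)
    _ ≤ 2 ^ (a + 1) * 6 ^ (k₁ + k₂) * (C * (F : ℝ) ^ (k₁ + k₂) * (30 * (2 / yy x) * ν)) := by
        refine mul_le_mul_of_nonneg_left ?_ (by positivity)
        refine mul_le_mul_of_nonneg_right ?_ (by positivity)
        exact mul_le_mul_of_nonneg_left h5 hC.le
    _ = _ := by ring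

end SYS.Num
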