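import Pool.Agent.SYS.SH.Mul
import Pool.Agent.SYS.SH.Thr

/-!
# SYS-SH-Out: THEOREM SEPH: two hidden components with holes, precision `exp (ε |P|)`

For `a ≥ 1` the total number of pairs of hidden components with holes `P₁`, `P₂` such that `#P_i - 1 + 2 g_i ≥ a` for `i = 1, 2` is at most
`K exp (ε |P|) (A/√y)^|P| F^(#P₁ + #P₂ - 1 - a) nu (F/2) g`.
-/

namespace SYS.Num

open Finset Real

variable {θ x : ℝ}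

private theorem sephO_min (k : ℕ) (f : ℕ → ℕ → ℝ) (hf : ∀ i j, 0 < f i j) :
    ∃ d : ℝ, 0 < d ∧ ∀ i ≤ k, ∀ j ≤ k, d ≤ f i j := by
  have hne : (range (k + 1) ×ˢ range (k + 1)).Nonempty :=
    ⟨(0, 0), mem_product.2 ⟨mem_range.2 (by omega), mem_range.2 (by omega)⟩⟩
  obtain ⟨p, _, hp⟩ := exists_min_image (range (k + 1) ×ˢ range (k + 1)) (fun p => f p.1 p.2) hne
  refine ⟨f p.1 p.2, hf _ _, ?_⟩
  intro i hi j hj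
  exact hp (i, j) (mem_product.2 ⟨mem_range.2 (by omega), mem_range.2 (by omega)⟩)

private theorem sephO_max {α : Type} [LinearOrder α] (k : ℕ) (f : ℕ → ℕ → α) :
    ∃ d : α, (∃ i j, d = f i j) ∧ ∀ i ≤ k, ∀ j ≤ k, f i j ≤ d := by
  have hne : (range (k + 1) ×ˢ range (k + 1)).Nonempty :=
    ⟨(0, 0), mem_product.2 ⟨mem_range.2 (by omega), mem_range.2 (by omega)⟩⟩
  obtain ⟨p, _, hp⟩ := exists_max_image (range (k + 1) ×ˢ range (k + 1)) (fun p => f p.1 p.2) hne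
  refine ⟨f p.1 p.2, ⟨p.1, p.2, rfl⟩, ?_⟩
  intro i hi j hj
  exact hp (i, j) (mem_product.2 ⟨mem_range.2 (by omega), mem_range.2 (by omega)⟩)

private theorem sephO_alg {K₁ K₂ K₃ E₁ E₂ E₃ G₁ G₂ Y₁ Y₂ L0 L1 L2 N N0 F F' : ℝ} {k₀ k₁ k₂ a : ℕ}
    (h1 : L0 ≤ K₁ ^ k₁ * E₁ * G₁ * Y₁ * L1) (h2 : L1 ≤ K₁ ^ k₂ * E₂ * G₂ * Y₂ * L2)
    (h3 : F' ^ (a + 1) * L2 ≤ K₂ * F' ^ (k₁ + k₂) * N) (h4 : Y₁ * Y₂ * N ≤ K₃ * E₃ * N0)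
    (hK₁ : 1 ≤ K₁) (hK₂ : 0 < K₂) (hK₃ : 0 < K₃) (hE₁ : 0 ≤ E₁) (hE₂ : 0 ≤ E₂) (hE₃ : 0 ≤ E₃)
    (hG₁ : 0 ≤ G₁) (hG₂ : 0 ≤ G₂) (hY₁ : 0 ≤ Y₁) (hY₂ : 0 ≤ Y₂) (hL0 : 0 ≤ L0) (_ : 0 ≤ N)
    (hN0 : 0 ≤ N0) (hF : 0 ≤ F) (hF1 : F ≤ F') (hF2 : F' ≤ 2 * F) (hk₁ : k₁ ≤ k₀) (hk₂ : k₂ ≤ k₀) :
    F ^ (a + 1) * L0 ≤ K₁ ^ (2 * k₀) * K₂ * 2 ^ (2 * k₀) * K₃ * (E₁ * E₂ * E₃) * (G₁ * G₂) *
      F ^ (k₁ + k₂) * N0 := by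
  have hF' : 0 ≤ F' := hF.trans hF1
  have hK0 : 0 ≤ K₁ := by linarith
  have a1 : L0 ≤ K₁ ^ (k₁ + k₂) * (E₁ * E₂) * (G₁ * G₂) * (Y₁ * Y₂) * L2 := by
    refine h1.trans ((mul_le_mul_of_nonneg_left h2 (by positivity)).trans (le_of_eq ?_))
    rw [pow_add]
    ring
  have a2 : F ^ (a + 1) * L0 ≤ F' ^ (a + 1) * L0 :=
    mul_le_mul_of_nonneg_right (pow_le_pow_left₀ hF hF1 _) hL0
  have a3 : F' ^ (a + 1) * L0 ≤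
      K₁ ^ (k₁ + k₂) * (E₁ * E₂) * (G₁ * G₂) * (Y₁ * Y₂) * (F' ^ (a + 1) * L2) := by
    refine (mul_le_mul_of_nonneg_left a1 (pow_nonneg hF' _)).trans (le_of_eq ?_)
    ring
  have a4 : K₁ ^ (k₁ + k₂) * (E₁ * E₂) * (G₁ * G₂) * (Y₁ * Y₂) * (F' ^ (a + 1) * L2) ≤
      K₁ ^ (k₁ + k₂) * (E₁ * E₂) * (G₁ * G₂) * (Y₁ * Y₂) * (K₂ * F' ^ (k₁ + k₂) * N) :=
    mul_le_mul_of_nonneg_left h3 (by positivity)
  have a5 : K₁ ^ (k₁ + k₂) * (E₁ * E₂) * (G₁ * G₂) * (Y₁ * Y₂) * (K₂ * F' ^ (k₁ + k₂) * N) =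
      K₁ ^ (k₁ + k₂) * K₂ * F' ^ (k₁ + k₂) * (E₁ * E₂) * (G₁ * G₂) * (Y₁ * Y₂ * N) := by ring
  have a6 : K₁ ^ (k₁ + k₂) * K₂ * F' ^ (k₁ + k₂) * (E₁ * E₂) * (G₁ * G₂) * (Y₁ * Y₂ * N) ≤
      K₁ ^ (k₁ + k₂) * K₂ * F' ^ (k₁ + k₂) * (E₁ * E₂) * (G₁ * G₂) * (K₃ * E₃ * N0) :=
    mul_le_mul_of_nonneg_left h4 (by positivity)
  have b1 : K₁ ^ (k₁ + k₂) ≤ K₁ ^ (2 * k₀) := pow_le_pow_right₀ hK₁ (by omega)
  have b2 : F' ^ (k₁ + k₂) ≤ 2 ^ (2 * k₀) * F ^ (k₁ + k₂) := by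
    calc F' ^ (k₁ + k₂) ≤ (2 * F) ^ (k₁ + k₂) := pow_le_pow_left₀ hF' hF2 _
      _ = 2 ^ (k₁ + k₂) * F ^ (k₁ + k₂) := mul_pow _ _ _
      _ ≤ 2 ^ (2 * k₀) * F ^ (k₁ + k₂) :=
          mul_le_mul_of_nonneg_right (pow_le_pow_right₀ (by norm_num) (by omega)) (pow_nonneg hF _)
  have b3 : K₁ ^ (k₁ + k₂) * K₂ * F' ^ (k₁ + k₂) ≤
      K₁ ^ (2 * k₀) * K₂ * (2 ^ (2 * k₀) * F ^ (k₁ + k₂)) := by
    refine mul_le_mul (mul_le_mul_of_nonneg_right b1 hK₂.le) b2 (pow_nonneg hF' _) (by positivity)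
  have b4 : K₁ ^ (k₁ + k₂) * K₂ * F' ^ (k₁ + k₂) * (E₁ * E₂) * (G₁ * G₂) * (K₃ * E₃ * N0) ≤
      K₁ ^ (2 * k₀) * K₂ * (2 ^ (2 * k₀) * F ^ (k₁ + k₂)) * (E₁ * E₂) * (G₁ * G₂) *
        (K₃ * E₃ * N0) := by
    refine mul_le_mul_of_nonneg_right ?_ (by positivity)
    refine mul_le_mul_of_nonneg_right ?_ (by positivity)
    exact mul_le_mul_of_nonneg_right b3 (by positivity)
  calc F ^ (a + 1) * L0 ≤ _ := a2.trans (a3.trans (a4.trans (a5.le.trans (a6.trans b4))))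
    _ = _ := by ring

theorem seph (h : Par θ x) {ε : ℝ} (hε : 0 < ε) (k₀ a : ℕ) (ha : 1 ≤ a) :
    ∃ (K δ : ℝ) (M : ℕ), 0 < K ∧ 0 < δ ∧ ∀ (P₁ P₂ : Multiset ℕ) (F g : ℕ), P₁ ≠ 0 → P₂ ≠ 0 →
      Multiset.card P₁ ≤ k₀ → Multiset.card P₂ ≤ k₀ → Win θ δ M (P₁ + P₂) F g →
      (F : ℝ) ^ (a + 1) * LL a P₁ P₂ F g ≤
        K * exp (ε * (P₁ + P₂).sum) * gam x ^ (P₁ + P₂).sum *
          (F : ℝ) ^ (Multiset.card P₁ + Multiset.card P₂) * SST.nu ((F + 1) / 2) g := by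
  have hθ0 : 0 < θ := h.1
  have hθ1 : θ < 1 / 2 := h.2.1
  obtain ⟨C₀, hred⟩ := red_mul h.2.2.1
  obtain ⟨K₁, hK₁, hR⟩ := hred (ε / 4) (by linarith)
  have hthr := fun k₁ k₂ : ℕ => thr h a (k₁ + 1) (k₂ + 1) (by omega) (by omega)
  choose Kf δf Mf hKf hδf hT using hthr
  obtain ⟨K₂, ⟨i0, j0, hK₂e⟩, hK₂⟩ := sephO_max k₀ Kf
  have hK₂0 : 0 < K₂ := by
    rw [hK₂e]
    exact hKf _ _
  obtain ⟨M₂, _, hM₂⟩ := sephO_max k₀ Mf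
  obtain ⟨δ₂, hδ₂0, hδ₂⟩ := sephO_min k₀ δf hδf
  have hC0 : (0 : ℝ) ≤ C₀ := Nat.cast_nonneg _
  have hC1 : (0 : ℝ) < 4 * (C₀ + 1) := by positivity
  obtain ⟨K₃, δ₃, M₃, hK₃, hδ₃, hnu⟩ := nu_add h (ε := ε / (4 * (C₀ + 1))) (by positivity) (6 * k₀)
  obtain ⟨m, hm⟩ : ∃ m : ℝ, m = min 1 (min δ₂ δ₃) := ⟨_, rfl⟩
  have hm0 : 0 < m := by
    rw [hm]
    exact lt_min one_pos (lt_min hδ₂0 hδ₃)
  have hm1 : m ≤ 1 := by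
    rw [hm]
    exact min_le_left _ _
  have hm2 : m ≤ δ₂ := by
    rw [hm]
    exact (min_le_right _ _).trans (min_le_left _ _)
  have hm3 : m ≤ δ₃ := by
    rw [hm]
    exact (min_le_right _ _).trans (min_le_right _ _)
  have hCp : (0 : ℝ) < C₀ + 1 := by positivity
  refine ⟨K₁ ^ (2 * k₀) * K₂ * 2 ^ (2 * k₀) * K₃, m / (C₀ + 1), M₂ + M₃, by positivity,
    by positivity, ?_⟩
  intro P₁ P₂ F g hP₁ hP₂ hc₁ hc₂ hW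
  obtain ⟨w1, w2, w3, w4⟩ := hW
  have hFn : (0 : ℝ) ≤ F := Nat.cast_nonneg _
  obtain ⟨v₁, hv₁, e1⟩ := hR (fun R F => LL a R P₂ F g) (fun Q => hp_left ha Q P₂ g) P₁ F
    (fun q hq => w4 q (Multiset.mem_add.2 (Or.inl hq)))
  obtain ⟨v₂, hv₂, e2⟩ := hR (fun R F => LL a (Multiset.replicate (Multiset.card P₁) 3) R F g)
    (fun Q => hp_right ha (Multiset.replicate (Multiset.card P₁) 3) Q g) P₂ (F + v₁)
    (fun q hq => w4 q (Multiset.mem_add.2 (Or.inr hq)))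
  have hk₁ : 0 < Multiset.card P₁ := Multiset.card_pos.2 hP₁
  have hk₂ : 0 < Multiset.card P₂ := Multiset.card_pos.2 hP₂
  obtain ⟨k₁, hk₁e⟩ : ∃ k₁, Multiset.card P₁ = k₁ + 1 := ⟨Multiset.card P₁ - 1, by omega⟩
  obtain ⟨k₂, hk₂e⟩ : ∃ k₂, Multiset.card P₂ = k₂ + 1 := ⟨Multiset.card P₂ - 1, by omega⟩
  have hS : (P₁ + P₂).sum = P₁.sum + P₂.sum := Multiset.sum_add _ _
  have hS0 : (0 : ℝ) ≤ ((P₁ + P₂).sum : ℝ) := Nat.cast_nonneg _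
  have hvN : v₁ + v₂ ≤ C₀ * (P₁ + P₂).sum := by
    rw [hS, Nat.mul_add]
    omega
  have hvS : ((v₁ + v₂ : ℕ) : ℝ) ≤ C₀ * ((P₁ + P₂).sum : ℝ) := by exact_mod_cast hvN
  have hv0 : (0 : ℝ) ≤ ((v₁ + v₂ : ℕ) : ℝ) := Nat.cast_nonneg _
  have hvm : ((v₁ + v₂ : ℕ) : ℝ) + m / (C₀ + 1) * F ≤ m * F := by
    have h1 : (C₀ : ℝ) * ((P₁ + P₂).sum : ℝ) ≤ C₀ * (m / (C₀ + 1) * F) :=
      mul_le_mul_of_nonneg_left w3 hC0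
    have h2 : (C₀ : ℝ) * (m / (C₀ + 1) * F) + m / (C₀ + 1) * F = m * F := by
      field_simp
    linarith
  have hmF : 0 ≤ m / (C₀ + 1) * F := by positivity
  have hvF : ((v₁ + v₂ : ℕ) : ℝ) ≤ F := by
    have : m * F ≤ 1 * F := mul_le_mul_of_nonneg_right hm1 hFn
    linarith
  have hF'e : F + v₁ + v₂ = F + (v₁ + v₂) := by omega
  have hF' : ((F + v₁ + v₂ : ℕ) : ℝ) = F + ((v₁ + v₂ : ℕ) : ℝ) := by
    rw [hF'e]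
    push_cast
    ring
  have e3 := hT k₁ k₂ (F + v₁ + v₂) g
    ((hM₂ k₁ (by omega) k₂ (by omega)).trans (by omega)) (by
      have h1 : δ₂ * ((F + v₁ + v₂ : ℕ) : ℝ) ≤ δf k₁ k₂ * ((F + v₁ + v₂ : ℕ) : ℝ) :=
        mul_le_mul_of_nonneg_right (hδ₂ k₁ (by omega) k₂ (by omega)) (Nat.cast_nonneg _)
      refine le_trans ?_ h1
      rw [hF']
      have h2 : m * F ≤ δ₂ * F := mul_le_mul_of_nonneg_right hm2 hFn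
      have h3 : 0 ≤ δ₂ * ((v₁ + v₂ : ℕ) : ℝ) := mul_nonneg hδ₂0.le hv0
      have h4 : θ * ((v₁ + v₂ : ℕ) : ℝ) ≤ 1 * ((v₁ + v₂ : ℕ) : ℝ) :=
        mul_le_mul_of_nonneg_right (by linarith) hv0
      have h5 : 0 ≤ θ * ((v₁ + v₂ : ℕ) : ℝ) := mul_nonneg hθ0.le hv0
      rw [abs_le] at w2 ⊢
      rw [mul_add, mul_add]
      constructor <;> linarith)
  have hLL : (Multiset.replicate (k₁ + 1) 3 : Multiset ℕ) =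
      Multiset.replicate (Multiset.card P₁) 3 := by rw [hk₁e]
  have hk6 : 3 * (k₁ + 1) + 3 * (k₂ + 1) ≤ 6 * k₀ := by omega
  have e4 := hnu F g (v₁ + v₂) (3 * (k₁ + 1) + 3 * (k₂ + 1)) (by omega) (by
      have h2 : m / (C₀ + 1) * F ≤ δ₃ * F := by
        have : m * F ≤ δ₃ * F := mul_le_mul_of_nonneg_right hm3 hFn
        linarith
      exact w2.trans h2) (by
      have : m * F ≤ δ₃ * F := mul_le_mul_of_nonneg_right hm3 hFn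
      linarith) (by omega) hk6
  have hidx : (F + (v₁ + v₂) + (3 * (k₁ + 1) + 3 * (k₂ + 1))) / 2 =
      (F + v₁ + v₂ + 3 * (k₁ + 1) + 3 * (k₂ + 1)) / 2 := by
    congr 1
    omega
  rw [hidx, pow_add] at e4
  have hgam : 0 ≤ gam x := by
    unfold gam
    have := AA_gt x
    exact div_nonneg (by linarith) (Real.sqrt_nonneg _)
  have hkk : Multiset.card P₁ + Multiset.card P₂ = (k₁ + 1) + (k₂ + 1) := by omega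
  have e3' : ((F + v₁ + v₂ : ℕ) : ℝ) ^ (a + 1) *
      LL a (Multiset.replicate (Multiset.card P₁) 3) (Multiset.replicate (Multiset.card P₂) 3)
        (F + v₁ + v₂) g ≤ K₂ * ((F + v₁ + v₂ : ℕ) : ℝ) ^ (Multiset.card P₁ + Multiset.card P₂) *
        SST.nu ((F + v₁ + v₂ + 3 * (k₁ + 1) + 3 * (k₂ + 1)) / 2) g := by
    rw [hk₁e, hk₂e]
    refine e3.trans ?_
    refine mul_le_mul_of_nonneg_right ?_ (RB.nu_nn _ _)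
    exact mul_le_mul_of_nonneg_right (hK₂ k₁ (by omega) k₂ (by omega)) (by positivity)
  have key := sephO_alg (k₀ := k₀) (F := (F : ℝ)) e1 e2 e3' e4 hK₁ hK₂0 hK₃ (Real.exp_pos _).le
    (Real.exp_pos _).le (Real.exp_pos _).le (pow_nonneg hgam _) (pow_nonneg hgam _)
    (pow_nonneg (Real.sqrt_nonneg _) _) (pow_nonneg (Real.sqrt_nonneg _) _)
    (LL_nonneg a P₁ P₂ F g) (RB.nu_nn _ _) (RB.nu_nn _ _) hFn (by rw [hF']; linarith)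
    (by rw [hF']; linarith) hc₁ hc₂
  refine key.trans ?_
  refine mul_le_mul_of_nonneg_right ?_ (RB.nu_nn _ _)
  refine mul_le_mul_of_nonneg_right ?_ (pow_nonneg hFn _)
  rw [← pow_add, ← hS]
  refine mul_le_mul_of_nonneg_right ?_ (pow_nonneg hgam _)
  refine mul_le_mul_of_nonneg_left ?_ (by positivity)
  rw [← Real.exp_add, ← Real.exp_add, Real.exp_le_exp]
  have h1 : ε / (4 * (C₀ + 1)) * ((v₁ + v₂ : ℕ) : ℝ) ≤ ε / 4 * ((P₁ + P₂).sum : ℝ) := by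
    have h2 : ε / (4 * (C₀ + 1)) * ((v₁ + v₂ : ℕ) : ℝ) ≤
        ε / (4 * (C₀ + 1)) * (C₀ * ((P₁ + P₂).sum : ℝ)) :=
      mul_le_mul_of_nonneg_left hvS (by positivity)
    have h3 : ε / (4 * (C₀ + 1)) * (C₀ * ((P₁ + P₂).sum : ℝ)) +
        ε / (4 * (C₀ + 1)) * ((P₁ + P₂).sum : ℝ) = ε / 4 * ((P₁ + P₂).sum : ℝ) := by
      field_simp
    have h4 : 0 ≤ ε / (4 * (C₀ + 1)) * ((P₁ + P₂).sum : ℝ) := by positivity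
    linarith
  have h5 : ((P₁ + P₂).sum : ℝ) = (P₁.sum : ℝ) + (P₂.sum : ℝ) := by
    rw [hS]
    push_cast
    ring
  have h6 : 0 ≤ ε * ((P₁ + P₂).sum : ℝ) := by positivity
  rw [h5] at h1 h6 ⊢
  have h7 : ε / 4 * (P₁.sum : ℝ) + ε / 4 * (P₂.sum : ℝ) = ε / 4 * ((P₁.sum : ℝ) + (P₂.sum : ℝ)) := by
    ring
  rw [h7]
  have h8 : ε / 4 * ((P₁.sum : ℝ) + (P₂.sum : ℝ)) = ε * ((P₁.sum : ℝ) + (P₂.sum : ℝ)) / 4 := by ring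
  rw [h8] at h1 ⊢
  linarith

end SYS.Num
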