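import Pool.Agent.SYS.SH.Red

/-!
# SYS-SH-Mul: reduction of all perimeters to `3`

PROOF.  `red hx`: `C₁, C₀`; for every `ε > 0` there is `K ≥ 1` with `C₁ e ≤ K exp (ε e)` for all `e` (`K = max 1 (C₁/ε)`, `Real.add_one_le_exp`).
Induction on the multiset `P` for all `Ψ` (and all `F`): `P = p ::ₘ Q`: `HP (fun p F => Ψ (p ::ₘ Q) F)` and `red`: `Ψ (p ::ₘ Q) F ≤ K exp (ε p) gam^p √y^v₁ Ψ (3 ::ₘ Q) (F + v₁)`, `v₁ ≤ C₀ p`;
induction hypothesis for `Ψ' R := Ψ (3 ::ₘ R)` (`HP` of `p ↦ Ψ (3 ::ₘ p ::ₘ R) = Ψ (p ::ₘ 3 ::ₘ R)`, `Multiset.cons_swap`) at `Q`, `F + v₁`;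
`Multiset.replicate_succ`: `3 ::ₘ replicate (card Q) 3 = replicate (card P) 3`.  `Multiset.sum_cons`.
-/

namespace SYS.Num

open Finset Real

theorem red_mul {x : ℝ} (hx : 0 < x) : ∃ C₀ : ℕ, ∀ ε : ℝ, 0 < ε → ∃ K : ℝ, 1 ≤ K ∧
    ∀ Ψ : Multiset ℕ → ℕ → ℝ, (∀ Q, HP (fun p F => Ψ (p ::ₘ Q) F)) →
      ∀ (P : Multiset ℕ) (F : ℕ), (∀ q ∈ P, 1 ≤ q) → ∃ v : ℕ, v ≤ C₀ * P.sum ∧
        Ψ P F ≤ K ^ Multiset.card P * exp (ε * P.sum) * gam x ^ P.sum * √(yy x) ^ v *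
          Ψ (Multiset.replicate (Multiset.card P) 3) (F + v) := by
  obtain ⟨C₁, C₀, hC₁, hred⟩ := red hx
  have hs0 : 0 ≤ √(yy x) := Real.sqrt_nonneg _
  have hg0 : 0 ≤ gam x := by
    unfold gam
    exact div_nonneg (le_trans (by norm_num) (AA_gt x).le) hs0
  refine ⟨C₀, fun ε hε => ⟨max 1 (C₁ / ε), le_max_left _ _, ?_⟩⟩
  obtain ⟨K, hK⟩ : ∃ K : ℝ, K = max 1 (C₁ / ε) := ⟨_, rfl⟩
  rw [← hK]
  have hK1 : 1 ≤ K := by
    rw [hK]
    exact le_max_left _ _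
  have hK0 : 0 ≤ K := zero_le_one.trans hK1
  have hKe : ∀ e : ℕ, C₁ * e ≤ K * exp (ε * e) := by
    intro e
    have h1 : C₁ / ε ≤ K := by
      rw [hK]
      exact le_max_right _ _
    have h2 : ε * e ≤ exp (ε * e) := by
      have h3 := Real.add_one_le_exp (ε * (e : ℝ))
      linarith
    have h3 : (0 : ℝ) ≤ ε * e := by positivity
    calc C₁ * e = C₁ / ε * (ε * e) := by
          field_simp
      _ ≤ K * exp (ε * e) := mul_le_mul h1 h2 h3 hK0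
  intro Ψ hΨ P
  induction P using Multiset.induction_on generalizing Ψ with
  | empty =>
    intro F _
    exact ⟨0, Nat.zero_le _, by simp⟩
  | cons p Q ih =>
    intro F hq
    have hp : 1 ≤ p := hq p (Multiset.mem_cons_self p Q)
    obtain ⟨v₁, hv₁, h1⟩ := hred (fun p F => Ψ (p ::ₘ Q) F) (hΨ Q) p F hp
    have hΨ' : ∀ Q', HP (fun p F => (fun (R : Multiset ℕ) (F : ℕ) => Ψ (3 ::ₘ R) F) (p ::ₘ Q') F) := by
      intro Q'
      have h2 := hΨ (3 ::ₘ Q')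
      have h3 : (fun (p F : ℕ) => (fun (R : Multiset ℕ) (F : ℕ) => Ψ (3 ::ₘ R) F) (p ::ₘ Q') F) =
          fun (p F : ℕ) => Ψ (p ::ₘ 3 ::ₘ Q') F := by
        funext p F
        show Ψ (3 ::ₘ p ::ₘ Q') F = Ψ (p ::ₘ 3 ::ₘ Q') F
        rw [Multiset.cons_swap]
      rw [h3]
      exact h2
    obtain ⟨v₂, hv₂, h2⟩ := ih (fun (R : Multiset ℕ) (F : ℕ) => Ψ (3 ::ₘ R) F) hΨ' (F + v₁)
      (fun q hq' => hq q (Multiset.mem_cons_of_mem hq'))
    have h1' : Ψ (p ::ₘ Q) F ≤ C₁ * p * gam x ^ p * √(yy x) ^ v₁ * Ψ (3 ::ₘ Q) (F + v₁) := h1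
    have h2' : Ψ (3 ::ₘ Q) (F + v₁) ≤ K ^ Multiset.card Q * exp (ε * Q.sum) * gam x ^ Q.sum *
        √(yy x) ^ v₂ * Ψ (3 ::ₘ Multiset.replicate (Multiset.card Q) 3) (F + v₁ + v₂) := h2
    refine ⟨v₁ + v₂, ?_, ?_⟩
    · rw [Multiset.sum_cons, Nat.mul_add]
      exact Nat.add_le_add hv₁ hv₂
    · have hR : Multiset.replicate (Multiset.card (p ::ₘ Q)) 3 =
          3 ::ₘ Multiset.replicate (Multiset.card Q) 3 := by
        rw [Multiset.card_cons, Multiset.replicate_succ]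
      rw [hR, ← Nat.add_assoc, Multiset.card_cons, Multiset.sum_cons]
      have h0 : 0 ≤ Ψ (3 ::ₘ Multiset.replicate (Multiset.card Q) 3) (F + v₁ + v₂) :=
        (hΨ (Multiset.replicate (Multiset.card Q) 3)).1 3 (F + v₁ + v₂)
      have h3 : 0 ≤ gam x ^ p * √(yy x) ^ v₁ := mul_nonneg (pow_nonneg hg0 _) (pow_nonneg hs0 _)
      have h4 : 0 ≤ C₁ * p * gam x ^ p * √(yy x) ^ v₁ := by
        rw [mul_assoc]
        exact mul_nonneg (by positivity) h3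
      have h5 : 0 ≤ K ^ Multiset.card Q * exp (ε * Q.sum) * gam x ^ Q.sum *
          √(yy x) ^ v₂ * Ψ (3 ::ₘ Multiset.replicate (Multiset.card Q) 3) (F + v₁ + v₂) :=
        mul_nonneg (mul_nonneg (mul_nonneg (mul_nonneg (pow_nonneg hK0 _) (exp_pos _).le)
          (pow_nonneg hg0 _)) (pow_nonneg hs0 _)) h0
      calc Ψ (p ::ₘ Q) F ≤ C₁ * p * gam x ^ p * √(yy x) ^ v₁ * Ψ (3 ::ₘ Q) (F + v₁) := h1'
        _ ≤ C₁ * p * gam x ^ p * √(yy x) ^ v₁ * (K ^ Multiset.card Q * exp (ε * Q.sum) *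
            gam x ^ Q.sum * √(yy x) ^ v₂ *
              Ψ (3 ::ₘ Multiset.replicate (Multiset.card Q) 3) (F + v₁ + v₂)) :=
            mul_le_mul_of_nonneg_left h2' h4
        _ = C₁ * p * (gam x ^ p * √(yy x) ^ v₁ * (K ^ Multiset.card Q * exp (ε * Q.sum) *
            gam x ^ Q.sum * √(yy x) ^ v₂ *
              Ψ (3 ::ₘ Multiset.replicate (Multiset.card Q) 3) (F + v₁ + v₂))) := by ring
        _ ≤ K * exp (ε * p) * (gam x ^ p * √(yy x) ^ v₁ * (K ^ Multiset.card Q * exp (ε * Q.sum) *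
            gam x ^ Q.sum * √(yy x) ^ v₂ *
              Ψ (3 ::ₘ Multiset.replicate (Multiset.card Q) 3) (F + v₁ + v₂))) :=
            mul_le_mul_of_nonneg_right (hKe p) (mul_nonneg h3 h5)
        _ = _ := by
            push_cast
            rw [mul_add ε, Real.exp_add]
            ring

end SYS.Num
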