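import Pool.Agent.SYS.SH.HpL
import Pool.Agent.SYS.SH.Mul
import Pool.Agent.SYS.SH.Rn

/-!
# SYS-SH-Nf: upper bound in normal form, one hidden component

PROOF.  `P ≠ 0`, `k = card P ≤ k₀`, `g - j ≥ 1` in the window (`θ > 0`, `F` large).  `red_mul` with `ε/4` for `Ψ P F := muG P F (g - j)`
(`hp_muG`, second alternative): `muG P F (g-j) ≤ K₁^k exp (ε/4 |P|) gam^|P| √y^v muG (replicate k 3) (F + v) (g-j)`, `v ≤ C₀ |P|`.
`UBC`: `muG (replicate k 3) (F+v) (g-j) ≤ (3 (F + v + 3k))^k nu ((F + v + 3k)/2) (g-j)`, `3 (F + v + 3 k) ≤ 12 F` (`v ≤ C₀ δ F ≤ F`).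
`nu_add` (with `ε/(4 C₀ + 4)`, at genus `g - j`: still in the window of `2 δ` as `j ≤ δ F`): `√y^v nu ((F+v+3k)/2) (g-j) ≤ K exp (ε/4 |P|) nu ((F+1)/2) (g-j)`.  `nu_gen`.
-/

namespace SYS.Num

open Finset Real

variable {θ x : ℝ}

private theorem nf_gam (x : ℝ) : 0 ≤ gam x := by
  unfold gam AA
  have h1 : 0 < cosh x := Real.cosh_pos x
  have h2 : 0 ≤ rr x := by
    unfold rr
    exact Real.sqrt_nonneg _
  exact div_nonneg (div_nonneg (by linarith) (by linarith)) (Real.sqrt_nonneg _)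

private theorem nf_nn (n g : ℕ) : 0 ≤ SST.nu n g := by
  unfold SST.nu
  exact div_nonneg (Nat.cast_nonneg _) (Nat.cast_nonneg _)

theorem nf_up (h : Par θ x) {ε : ℝ} (hε : 0 < ε) (k₀ j : ℕ) : ∃ (K δ : ℝ) (M : ℕ), 0 < K ∧ 0 < δ ∧
    ∀ (P : Multiset ℕ) (F g : ℕ), P ≠ 0 → Multiset.card P ≤ k₀ → Win θ δ M P F g →
      (F : ℝ) ^ (2 * j) * muG P F (g - j) ≤
        K * exp (ε * P.sum) * gam x ^ P.sum * (F : ℝ) ^ Multiset.card P *
          SST.nu ((F + 1) / 2) g := by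
  obtain ⟨hθ, hθ', hx, -⟩ := id h
  obtain ⟨C₀, hred⟩ := red_mul hx
  obtain ⟨K₁, hK₁, hred1⟩ := hred (ε / 4) (by linarith)
  have hC : (0 : ℝ) ≤ C₀ := Nat.cast_nonneg _
  have hC1 : (0 : ℝ) < (C₀ : ℝ) + 1 := by linarith
  obtain ⟨ε₂, hε₂⟩ : ∃ e : ℝ, e = ε / (4 * ((C₀ : ℝ) + 1)) := ⟨_, rfl⟩
  have hε₂p : 0 < ε₂ := by
    rw [hε₂]
    positivity
  obtain ⟨K₂, δ₂, M₂, hK₂, hδ₂, hadd⟩ := nu_add h hε₂p (3 * k₀)
  obtain ⟨K₃, δ₃, M₃, hK₃, hδ₃, hgen⟩ := nu_gen h j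
  obtain ⟨δ, hδ⟩ : ∃ d : ℝ, d = min (min (δ₂ / (2 * ((C₀ : ℝ) + 1))) δ₃)
      (min (θ / 2) (1 / ((C₀ : ℝ) + 1))) := ⟨_, rfl⟩
  have d1 : δ ≤ δ₂ / (2 * ((C₀ : ℝ) + 1)) := by
    rw [hδ]
    exact (min_le_left _ _).trans (min_le_left _ _)
  have d2 : δ ≤ δ₃ := by
    rw [hδ]
    exact (min_le_left _ _).trans (min_le_right _ _)
  have d3 : δ ≤ θ / 2 := by
    rw [hδ]
    exact (min_le_right _ _).trans (min_le_left _ _)
  have d4 : δ ≤ 1 / ((C₀ : ℝ) + 1) := by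
    rw [hδ]
    exact (min_le_right _ _).trans (min_le_right _ _)
  have hδp : 0 < δ := by
    rw [hδ]
    exact lt_min (lt_min (by positivity) hδ₃) (lt_min (by linarith) (by positivity))
  have d1' : δ * (2 * ((C₀ : ℝ) + 1)) ≤ δ₂ := (le_div_iff₀ (by positivity)).1 d1
  have d4' : δ * ((C₀ : ℝ) + 1) ≤ 1 := (le_div_iff₀ hC1).1 d4
  obtain ⟨M, hM⟩ : ∃ m : ℕ, m = M₂ + M₃ + 3 * k₀ + 1 + ⌈4 * ((j : ℝ) + 1) / θ⌉₊ +
      ⌈4 * ((j : ℝ) + 1) / δ₂⌉₊ := ⟨_, rfl⟩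
  refine ⟨K₁ ^ k₀ * 9 ^ k₀ * K₂ * K₃, δ, M, by positivity, hδp, ?_⟩
  rintro P F g hP hk ⟨w1, w2, w3, w4⟩
  have hFM : M₂ ≤ F ∧ M₃ ≤ F ∧ 3 * k₀ + 1 ≤ F := by omega
  have hF0 : (0 : ℝ) ≤ F := Nat.cast_nonneg F
  have hFθ : 4 * ((j : ℝ) + 1) ≤ θ * F := by
    have h1 : 4 * ((j : ℝ) + 1) / θ ≤ F := by
      refine (Nat.le_ceil _).trans ?_
      exact_mod_cast (show ⌈4 * ((j : ℝ) + 1) / θ⌉₊ ≤ F by omega)
    rw [div_le_iff₀ hθ] at h1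
    linarith
  have hFδ : 4 * ((j : ℝ) + 1) ≤ δ₂ * F := by
    have h1 : 4 * ((j : ℝ) + 1) / δ₂ ≤ F := by
      refine (Nat.le_ceil _).trans ?_
      exact_mod_cast (show ⌈4 * ((j : ℝ) + 1) / δ₂⌉₊ ≤ F by omega)
    rw [div_le_iff₀ hδ₂] at h1
    linarith
  have hj0 : (0 : ℝ) ≤ j := Nat.cast_nonneg j
  have w2' := abs_le.1 w2
  have hδF : δ * F ≤ θ / 2 * F := mul_le_mul_of_nonneg_right d3 hF0
  have hgj : j + 1 ≤ g := by
    have h1 : 2 * ((j : ℝ) + 1) ≤ 2 * g := by linarith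
    have h2 : (j : ℝ) + 1 ≤ g := by linarith
    exact_mod_cast h2
  have hcast : ((g - j : ℕ) : ℝ) = (g : ℝ) - j := by
    rw [Nat.cast_sub (by omega)]
  -- the reduction
  obtain ⟨v, hv, hΨ⟩ := hred1 (fun R G => muG R G (g - j))
    (fun Q => hp_muG Q (g - j) (Or.inr (by omega))) P F w4
  have hvR : (v : ℝ) ≤ C₀ * (P.sum : ℝ) := by exact_mod_cast hv
  have hPs : (0 : ℝ) ≤ (P.sum : ℝ) := Nat.cast_nonneg _
  have hvF : (v : ℝ) ≤ C₀ * (δ * F) := hvR.trans (mul_le_mul_of_nonneg_left w3 hC)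
  have hδF0 : 0 ≤ δ * F := mul_nonneg hδp.le hF0
  have hvδ₂ : (v : ℝ) ≤ δ₂ * F := by
    have h1 : (δ * (2 * ((C₀ : ℝ) + 1))) * F ≤ δ₂ * F := mul_le_mul_of_nonneg_right d1' hF0
    linarith
  have hvF1 : (v : ℝ) ≤ F := by
    have h1 : (δ * ((C₀ : ℝ) + 1)) * F ≤ 1 * F := mul_le_mul_of_nonneg_right d4' hF0
    linarith
  have hvn : v ≤ F := by exact_mod_cast hvF1
  obtain ⟨k, hkd⟩ : ∃ k : ℕ, k = Multiset.card P := ⟨_, rfl⟩
  rw [← hkd] at hΨ hk ⊢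
  have hsum : (Multiset.replicate k 3).sum = 3 * k := by
    rw [Multiset.sum_replicate, smul_eq_mul, mul_comm]
  have hU := UBC (Multiset.replicate k 3) (fun q hq => by
    rw [Multiset.eq_of_mem_replicate hq]
    norm_num) (F + v) (g - j) (by omega)
  rw [hsum, Multiset.card_replicate] at hU
  have hwin2 : |2 * ((g - j : ℕ) : ℝ) - θ * F| ≤ δ₂ * F := by
    rw [hcast, abs_le]
    have h1 : δ * F ≤ δ₂ / 2 * F := by
      refine mul_le_mul_of_nonneg_right ?_ hF0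
      nlinarith
    constructor <;> linarith
  have hnn := nf_nn ((F + 1) / 2) (g - j)
  have hnn2 := nf_nn ((F + v + 3 * k) / 2) (g - j)
  have hnn3 := nf_nn ((F + 1) / 2) g
  have hy0 : 0 ≤ √(yy x) ^ v := pow_nonneg (Real.sqrt_nonneg _) _
  have hk1 : 1 ≤ k := by
    rw [hkd]
    exact Multiset.card_pos.2 hP
  have hadd1 := hadd F (g - j) v (3 * k) hFM.1 hwin2 hvδ₂ (by omega) (by omega)
  have hgen1 := hgen F g hFM.2.1 (w2.trans (mul_le_mul_of_nonneg_right d2 hF0))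
  have hg0 : 0 ≤ gam x ^ P.sum := pow_nonneg (nf_gam x) _
  have hexp : exp (ε₂ * v) ≤ exp (ε / 4 * P.sum) := by
    refine Real.exp_le_exp.2 ?_
    have h1 : ε₂ * v ≤ ε₂ * (((C₀ : ℝ) + 1) * P.sum) := by
      refine mul_le_mul_of_nonneg_left ?_ hε₂p.le
      linarith
    refine h1.trans (le_of_eq ?_)
    rw [hε₂]
    field_simp
  have hpow : (3 * ((F + v + 3 * k : ℕ) : ℝ)) ^ k ≤ 9 ^ k * (F : ℝ) ^ k := by
    rw [← mul_pow]
    refine pow_le_pow_left₀ (by positivity) ?_ k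
    have h1 : F + v + 3 * k ≤ 3 * F := by omega
    have h2 : ((F + v + 3 * k : ℕ) : ℝ) ≤ 3 * F := by exact_mod_cast h1
    linarith
  have hK₁k : K₁ ^ k ≤ K₁ ^ k₀ := pow_le_pow_right₀ hK₁ hk
  have h9k : (9 : ℝ) ^ k ≤ 9 ^ k₀ := pow_le_pow_right₀ (by norm_num) hk
  have hK0 : 0 < K₁ := by linarith
  have hA0 : 0 ≤ K₁ ^ k * exp (ε / 4 * P.sum) * gam x ^ P.sum := by positivity
  -- the bound without genus correction
  have hB : muG P F (g - j) ≤ (K₁ ^ k * exp (ε / 4 * P.sum) * gam x ^ P.sum) *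
      ((9 ^ k * (F : ℝ) ^ k) * (K₂ * exp (ε / 4 * P.sum) * SST.nu ((F + 1) / 2) (g - j))) := by
    calc muG P F (g - j) ≤ K₁ ^ k * exp (ε / 4 * P.sum) * gam x ^ P.sum * √(yy x) ^ v *
          muG (Multiset.replicate k 3) (F + v) (g - j) := hΨ
      _ ≤ K₁ ^ k * exp (ε / 4 * P.sum) * gam x ^ P.sum * √(yy x) ^ v *
          ((3 * ((F + v + 3 * k : ℕ) : ℝ)) ^ k * SST.nu ((F + v + 3 * k) / 2) (g - j)) :=
          mul_le_mul_of_nonneg_left hU (mul_nonneg hA0 hy0)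
      _ = (K₁ ^ k * exp (ε / 4 * P.sum) * gam x ^ P.sum) *
          ((3 * ((F + v + 3 * k : ℕ) : ℝ)) ^ k *
            (√(yy x) ^ v * SST.nu ((F + v + 3 * k) / 2) (g - j))) := by ring
      _ ≤ (K₁ ^ k * exp (ε / 4 * P.sum) * gam x ^ P.sum) *
          ((9 ^ k * (F : ℝ) ^ k) * (K₂ * exp (ε / 4 * P.sum) * SST.nu ((F + 1) / 2) (g - j))) := by
          refine mul_le_mul_of_nonneg_left ?_ hA0
          refine mul_le_mul hpow ?_ (mul_nonneg hy0 hnn2) (by positivity)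
          refine hadd1.trans ?_
          refine mul_le_mul_of_nonneg_right ?_ hnn
          exact mul_le_mul_of_nonneg_left hexp hK₂.le
  have hFj : (0 : ℝ) ≤ (F : ℝ) ^ (2 * j) := by positivity
  have hexp2 : exp (ε / 4 * P.sum) * exp (ε / 4 * P.sum) ≤ exp (ε * P.sum) := by
    rw [← Real.exp_add]
    refine Real.exp_le_exp.2 ?_
    have : 0 ≤ ε * (P.sum : ℝ) := by positivity
    linarith
  calc (F : ℝ) ^ (2 * j) * muG P F (g - j) ≤ (F : ℝ) ^ (2 * j) *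
        ((K₁ ^ k * exp (ε / 4 * P.sum) * gam x ^ P.sum) *
        ((9 ^ k * (F : ℝ) ^ k) * (K₂ * exp (ε / 4 * P.sum) * SST.nu ((F + 1) / 2) (g - j)))) :=
        mul_le_mul_of_nonneg_left hB hFj
    _ = (K₁ ^ k * 9 ^ k) * K₂ * (exp (ε / 4 * P.sum) * exp (ε / 4 * P.sum)) *
        (gam x ^ P.sum * (F : ℝ) ^ k) * ((F : ℝ) ^ (2 * j) * SST.nu ((F + 1) / 2) (g - j)) := by
        ring
    _ ≤ (K₁ ^ k₀ * 9 ^ k₀) * K₂ * exp (ε * P.sum) *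
        (gam x ^ P.sum * (F : ℝ) ^ k) * (K₃ * SST.nu ((F + 1) / 2) g) := by
        refine mul_le_mul ?_ hgen1 (mul_nonneg hFj hnn) (by positivity)
        refine mul_le_mul_of_nonneg_right ?_ (by positivity)
        refine mul_le_mul ?_ hexp2 (by positivity) (by positivity)
        refine mul_le_mul_of_nonneg_right ?_ hK₂.le
        exact mul_le_mul hK₁k h9k (by positivity) (by positivity)
    _ = K₁ ^ k₀ * 9 ^ k₀ * K₂ * K₃ * exp (ε * P.sum) * gam x ^ P.sum * (F : ℝ) ^ k *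
        SST.nu ((F + 1) / 2) g := by ring

end SYS.Num
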