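import Pool.Agent.SYS.SH.Defs

/-!
# SYS-SH-HpL: the property `HP` for one and for two hidden components

`HP` is stable under finite sums (`hpl_sum`) and under convolution with a nonnegative sequence (`hpl_conv`); `muG` has it by `hist`,
and `LL` is a finite sum of convolutions.
-/

namespace SYS.Num

open Finset

private theorem hpl_zero : HP (fun _ _ => (0 : ℝ)) := by
  refine ⟨fun _ _ => le_rfl, ?_⟩
  intro p F _ S _ _
  simp

private theorem hpl_sum {ι : Type*} (s : Finset ι) (Φ : ι → ℕ → ℕ → ℝ) (h : ∀ i ∈ s, HP (Φ i)) :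
    HP (fun p F => ∑ i ∈ s, Φ i p F) := by
  refine ⟨fun p F => Finset.sum_nonneg fun i hi => (h i hi).1 p F, ?_⟩
  intro p F hp S hpf hS
  calc ∑ w ∈ S, wwt 1 W w * ∑ i ∈ s, Φ i (wend p w) (F - wvol w)
      = ∑ i ∈ s, ∑ w ∈ S, wwt 1 W w * Φ i (wend p w) (F - wvol w) := by
        rw [Finset.sum_comm]
        exact Finset.sum_congr rfl fun w _ => Finset.mul_sum _ _ _
    _ ≤ ∑ i ∈ s, Φ i p F := Finset.sum_le_sum fun i hi => (h i hi).2 p F hp S hpf hS

private theorem hpl_range (F v : ℕ) (hv : v ≤ F) (A B : ℕ → ℝ) :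
    ∑ f ∈ antidiagonal (F - v), A f.1 * B f.2 =
      ∑ j ∈ Finset.range (F + 1), if v ≤ F - j then A (F - j - v) * B j else 0 := by
  rw [← Finset.sum_filter, ← Finset.Nat.sum_antidiagonal_swap,
    Finset.Nat.sum_antidiagonal_eq_sum_range_succ_mk]
  rcases Nat.eq_zero_or_pos v with h0 | h0
  · subst h0
    refine Finset.sum_congr ?_ fun j _ => by simp
    ext j
    simp only [Finset.mem_range, Finset.mem_filter]
    omega
  · refine Finset.sum_congr ?_ fun j _ => ?_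
    · ext j
      simp only [Finset.mem_range, Finset.mem_filter]
      omega
    · have : F - v - j = F - j - v := by omega
      simp [this]

private theorem hpl_conv {Φ : ℕ → ℕ → ℝ} (h : HP Φ) {B : ℕ → ℝ} (hB : ∀ j, 0 ≤ B j) :
    HP (fun p F => ∑ f ∈ antidiagonal F, Φ p f.1 * B f.2) := by
  refine ⟨fun p F => Finset.sum_nonneg fun f _ => mul_nonneg (h.1 _ _) (hB _), ?_⟩
  intro p F hp S hpf hS
  have e0 : ∑ f ∈ antidiagonal F, Φ p f.1 * B f.2 = ∑ j ∈ Finset.range (F + 1), Φ p (F - j) * B j := by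
    have := hpl_range F 0 (Nat.zero_le _) (Φ p) B
    simpa using this
  show ∑ w ∈ S, wwt 1 W w * (∑ f ∈ antidiagonal (F - wvol w), Φ (wend p w) f.1 * B f.2) ≤
    ∑ f ∈ antidiagonal F, Φ p f.1 * B f.2
  rw [e0]
  calc ∑ w ∈ S, wwt 1 W w * (∑ f ∈ antidiagonal (F - wvol w), Φ (wend p w) f.1 * B f.2)
      = ∑ w ∈ S, ∑ j ∈ Finset.range (F + 1), (if wvol w ≤ F - j then
          wwt 1 W w * Φ (wend p w) (F - j - wvol w) else 0) * B j := by
        refine Finset.sum_congr rfl fun w hw => ?_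
        rw [hpl_range F (wvol w) (hS w hw).2 (Φ (wend p w)) B, Finset.mul_sum]
        refine Finset.sum_congr rfl fun j _ => ?_
        split_ifs
        · ring
        · ring
    _ = ∑ j ∈ Finset.range (F + 1), (∑ w ∈ S.filter (fun w => wvol w ≤ F - j),
          wwt 1 W w * Φ (wend p w) (F - j - wvol w)) * B j := by
        rw [Finset.sum_comm]
        refine Finset.sum_congr rfl fun j _ => ?_
        rw [← Finset.sum_mul, Finset.sum_filter]
    _ ≤ ∑ j ∈ Finset.range (F + 1), Φ p (F - j) * B j := by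
        refine Finset.sum_le_sum fun j _ => ?_
        refine mul_le_mul_of_nonneg_right ?_ (hB j)
        refine h.2 p (F - j) hp _ ?_ ?_
        · intro u hu w hw huw
          exact hpf u (Finset.mem_filter.1 hu).1 w (Finset.mem_filter.1 hw).1 huw
        · intro w hw
          exact ⟨(hS w (Finset.mem_filter.1 hw).1).1, (Finset.mem_filter.1 hw).2⟩

theorem hp_muG (Q : Multiset ℕ) (g : ℕ) (h : Q ≠ 0 ∨ g ≠ 0) : HP (fun p F => muG (p ::ₘ Q) F g) :=
  ⟨fun _ _ => muG_nonneg _ _ _, fun p F hp S hpf hS => hist p hp Q F g h S hpf hS⟩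

theorem LL_nonneg (a : ℕ) (P₁ P₂ : Multiset ℕ) (F g : ℕ) : 0 ≤ LL a P₁ P₂ F g := by
  unfold LL
  refine Finset.sum_nonneg fun f _ => Finset.sum_nonneg fun e _ => ?_
  split_ifs
  · exact mul_nonneg (muG_nonneg _ _ _) (muG_nonneg _ _ _)
  · exact le_rfl

theorem LL_comm (a : ℕ) (P₁ P₂ : Multiset ℕ) (F g : ℕ) : LL a P₁ P₂ F g = LL a P₂ P₁ F g := by
  unfold LL
  rw [← Finset.Nat.sum_antidiagonal_swap]
  refine Finset.sum_congr rfl fun f _ => ?_
  rw [← Finset.Nat.sum_antidiagonal_swap]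
  refine Finset.sum_congr rfl fun e _ => ?_
  simp only [Prod.fst_swap, Prod.snd_swap]
  refine if_congr and_comm (mul_comm _ _) rfl

theorem hp_left {a : ℕ} (ha : 1 ≤ a) (Q P₂ : Multiset ℕ) (g : ℕ) :
    HP (fun p F => LL a (p ::ₘ Q) P₂ F g) := by
  have e0 : (fun p F => LL a (p ::ₘ Q) P₂ F g) = fun p F => ∑ e ∈ antidiagonal g,
      (if a + 1 ≤ Multiset.card Q + 1 + 2 * e.1 ∧ a + 1 ≤ Multiset.card P₂ + 2 * e.2 then
        ∑ f ∈ antidiagonal F, muG (p ::ₘ Q) f.1 e.1 * muG P₂ f.2 e.2 else 0) := by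
    funext p F
    unfold LL
    rw [Finset.sum_comm]
    refine Finset.sum_congr rfl fun e _ => ?_
    rw [Multiset.card_cons]
    split_ifs
    · rfl
    · simp
  rw [e0]
  refine hpl_sum (antidiagonal g) (fun e p F =>
      (if a + 1 ≤ Multiset.card Q + 1 + 2 * e.1 ∧ a + 1 ≤ Multiset.card P₂ + 2 * e.2 then
        ∑ f ∈ antidiagonal F, muG (p ::ₘ Q) f.1 e.1 * muG P₂ f.2 e.2 else 0)) ?_
  intro e _
  by_cases hc : a + 1 ≤ Multiset.card Q + 1 + 2 * e.1 ∧ a + 1 ≤ Multiset.card P₂ + 2 * e.2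
  · simp only [if_pos hc]
    refine hpl_conv (Φ := fun p F => muG (p ::ₘ Q) F e.1) (hp_muG Q e.1 ?_)
      (B := fun j => muG P₂ j e.2) fun j => muG_nonneg _ _ _
    by_contra hn
    push Not at hn
    have h1 := hc.1
    rw [hn.1, hn.2, Multiset.card_zero] at h1
    omega
  · simp only [if_neg hc]
    exact hpl_zero

theorem hp_right {a : ℕ} (ha : 1 ≤ a) (P₁ Q : Multiset ℕ) (g : ℕ) :
    HP (fun p F => LL a P₁ (p ::ₘ Q) F g) := by
  have e0 : (fun p F => LL a P₁ (p ::ₘ Q) F g) = fun p F => LL a (p ::ₘ Q) P₁ F g := by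
    funext p F
    exact LL_comm _ _ _ _ _
  rw [e0]
  exact hp_left ha Q P₁ g

end SYS.Num
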