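import Pool.Agent.SYS.SH.Defs
import Pool.Agent.SYS.PL.RwC
import Pool.Agent.SYS.PL.RwA

/-!
# SYS-SH-Red: reduction of a perimeter to `3`, exactly up to a constant times the perimeter

PROOF.  `hitting hx`: `c₀, C₀`.
`e ≥ 3`: the prefix-free set `S` of first-hit words `3 → e`, `wvol ≤ C₀ (e - 3 + 1)`, `∑ PRW ≥ c₀`.  Pigeonhole over the volume (`Finset.sum_fiberwise` / `exists_le_of_sum_le` on `range (C₀ (e-2) + 1)`):
some `v ≤ C₀ (e-2)` with `∑_{w ∈ S, wvol w = v} PRW x w ≥ c₀/(C₀ (e-2) + 1)`.  For these words `PRW_eq`: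
`wwt 1 W w = PRW x w * A^3 * √y^e/(A^e √y^(v+3))`.  `HP` at `(3, F + v)` with `S' = {w ∈ S | wvol w = v}` (subset of a prefix-free set; `FH 3 e w` contains `WOk` and `wend = e`; `F + v - v = F`):
`(∑_{S'} wwt 1 W w) * Φ e F ≤ Φ 3 (F + v)`.  So `Φ e F ≤ ((C₀ (e-2) + 1)/c₀) (√y³/A³) (A/√y)^e √y^v Φ 3 (F + v)`.
`e = 1`: word `[L 0 0]` from `3` (`W 0 0 = 1`, `W_zero_zero`): `Φ 1 F ≤ Φ 3 F`, `v = 0`.  `e = 2`: word `[T, L 0 0]`: `3 → 4 → 2`, volume 1: `Φ 2 F ≤ Φ 3 (F+1)`, `v = 1`.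
Choose `C₁` as the maximum of the constants (`v ≤ C₀' e` with `C₀' = C₀ + 1`).  `0 < yy x`, `0 < AA x`: `yy_pos`, `AA_gt`.
-/

namespace SYS.Num

open Finset Real

private theorem red_gam_pos (x : ℝ) : 0 < gam x := by
  unfold gam
  have hA : 0 < AA x := by
    have := AA_gt x
    linarith
  exact div_pos hA (Real.sqrt_pos.2 (yy_pos x))

/-- one word -/
private theorem red_word {Φ : ℕ → ℕ → ℝ} (hΦ : HP Φ) {w : List Stp} {e : ℕ} (F : ℕ) (hw : WOk 3 w) (he : wend 3 w = e) :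
    wwt 1 W w * Φ e F ≤ Φ 3 (F + wvol w) := by
  have h := hΦ.2 3 (F + wvol w) (by norm_num) {w}
    (by
      intro u hu v hv _
      rw [Finset.mem_singleton] at hu hv
      rw [hu, hv])
    (by
      intro u hu
      rw [Finset.mem_singleton] at hu
      rw [hu]
      exact ⟨hw, Nat.le_add_left _ _⟩)
  rw [Finset.sum_singleton, he, Nat.add_sub_cancel] at h
  exact h

/-- the words of one volume -/
private theorem red_vol {Φ : ℕ → ℕ → ℝ} (hΦ : HP Φ) {e : ℕ} (F v : ℕ) {S : Finset (List Stp)} (hS : PF S)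
    (h : ∀ w ∈ S, WOk 3 w ∧ wend 3 w = e ∧ wvol w = v) :
    (∑ w ∈ S, wwt 1 W w) * Φ e F ≤ Φ 3 (F + v) := by
  have h1 := hΦ.2 3 (F + v) (by norm_num) S hS
    (by
      intro w hw
      obtain ⟨a1, _, a3⟩ := h w hw
      exact ⟨a1, by omega⟩)
  rw [Finset.sum_mul]
  refine le_trans (le_of_eq ?_) h1
  refine Finset.sum_congr rfl fun w hw => ?_
  obtain ⟨_, a2, a3⟩ := h w hw
  rw [a2, a3, Nat.add_sub_cancel]

private theorem red_pigeon {S : Finset (List Stp)} {f : List Stp → ℝ} {V : ℕ} {c : ℝ} (hV : ∀ w ∈ S, wvol w ≤ V)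
    (hc : c ≤ ∑ w ∈ S, f w) : ∃ v ≤ V, c / (V + 1) ≤ ∑ w ∈ S.filter (fun w => wvol w = v), f w := by
  have h1 : ∑ v ∈ Finset.range (V + 1), ∑ w ∈ S.filter (fun w => wvol w = v), f w = ∑ w ∈ S, f w :=
    Finset.sum_fiberwise_of_maps_to
      (fun w hw => Finset.mem_range.2 (Nat.lt_succ_of_le (hV w hw))) f
  have h2 : ∑ v ∈ Finset.range (V + 1), c / ((V : ℝ) + 1) ≤
      ∑ v ∈ Finset.range (V + 1), ∑ w ∈ S.filter (fun w => wvol w = v), f w := by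
    rw [h1, Finset.sum_const, Finset.card_range, nsmul_eq_mul]
    push_cast
    have h3 : ((V : ℝ) + 1) * (c / ((V : ℝ) + 1)) = c := by
      have : (V : ℝ) + 1 ≠ 0 := by positivity
      field_simp
    rw [h3]
    exact hc
  obtain ⟨v, hv, h3⟩ := Finset.exists_le_of_sum_le ⟨0, Finset.mem_range.2 (Nat.succ_pos V)⟩ h2
  exact ⟨v, Nat.lt_succ_iff.1 (Finset.mem_range.1 hv), h3⟩

/-- `e ≥ 3` -/
private theorem red_big {x : ℝ} (hx : 0 < x) : ∃ (K : ℝ) (C₀ : ℕ), 0 < K ∧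
    ∀ Φ : ℕ → ℕ → ℝ, HP Φ → ∀ e F : ℕ, 3 ≤ e → ∃ v : ℕ, v ≤ C₀ * e ∧
      Φ e F ≤ K * e * gam x ^ e * √(yy x) ^ v * Φ 3 (F + v) := by
  obtain ⟨c, C, hc, hh⟩ := hitting hx
  have hA : 0 < AA x := by
    have := AA_gt x
    linarith
  have hy : 0 < √(yy x) := Real.sqrt_pos.2 (yy_pos x)
  refine ⟨((C : ℝ) + 1) * √(yy x) ^ 3 / (AA x ^ 3 * c), C, by positivity, ?_⟩
  intro Φ hΦ e F he
  obtain ⟨S, hS, hS2, hS3⟩ := hh 3 e (by norm_num) he
  obtain ⟨v, hv, hv2⟩ := red_pigeon (fun w hw => (hS2 w hw).2) hS3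
  have hpf : PF (S.filter fun w => wvol w = v) := by
    intro u hu w hw huw
    exact hS u (Finset.mem_filter.1 hu).1 w (Finset.mem_filter.1 hw).1 huw
  have hmem : ∀ w ∈ S.filter (fun w => wvol w = v), WOk 3 w ∧ wend 3 w = e ∧ wvol w = v := by
    intro w hw
    obtain ⟨h1, h2⟩ := Finset.mem_filter.1 hw
    exact ⟨(hS2 w h1).1.1, (hS2 w h1).1.2.1, h2⟩
  have h1 := red_vol hΦ F v hpf hmem
  have h2 : (∑ w ∈ S.filter (fun w => wvol w = v), PRW x w) * AA x ^ 3 * √(yy x) ^ e =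
      (∑ w ∈ S.filter (fun w => wvol w = v), wwt 1 W w) * AA x ^ e * √(yy x) ^ (v + 3) := by
    rw [Finset.sum_mul, Finset.sum_mul, Finset.sum_mul, Finset.sum_mul]
    refine Finset.sum_congr rfl fun w hw => ?_
    obtain ⟨a1, a2, a3⟩ := hmem w hw
    have h3 := PRW_eq x 3 w a1
    rw [a2, a3] at h3
    exact h3
  have hcast : ((C * (e - 3 + 1) : ℕ) : ℝ) + 1 ≤ ((C : ℝ) + 1) * e := by
    have h3 : C * (e - 3 + 1) + 1 ≤ (C + 1) * e := by
      have h4 : C * (e - 3 + 1) ≤ C * e := Nat.mul_le_mul_left C (by omega)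
      have h5 : (C + 1) * e = C * e + e := by ring
      omega
    exact_mod_cast h3
  refine ⟨v, hv.trans (Nat.mul_le_mul_left C (by omega)), ?_⟩
  set σ := ∑ w ∈ S.filter (fun w => wvol w = v), PRW x w with hσ
  set τ := ∑ w ∈ S.filter (fun w => wvol w = v), wwt 1 W w with hτ
  have hΦ0 := hΦ.1 e F
  have hΦ3 := hΦ.1 3 (F + v)
  have he0 : (0 : ℝ) < ((C : ℝ) + 1) * e := by
    have : (0 : ℝ) < e := by
      have : 0 < e := by omega
      exact_mod_cast this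
    positivity
  have hσ1 : c / (((C : ℝ) + 1) * e) ≤ σ := by
    refine le_trans ?_ hv2
    exact div_le_div_of_nonneg_left hc.le (by positivity) hcast
  have h4 : Φ e F * (c / (((C : ℝ) + 1) * e)) * (AA x ^ 3 * √(yy x) ^ e) ≤
      Φ 3 (F + v) * (AA x ^ e * √(yy x) ^ (v + 3)) := by
    calc Φ e F * (c / (((C : ℝ) + 1) * e)) * (AA x ^ 3 * √(yy x) ^ e)
        ≤ Φ e F * σ * (AA x ^ 3 * √(yy x) ^ e) :=
          mul_le_mul_of_nonneg_right (mul_le_mul_of_nonneg_left hσ1 hΦ0) (by positivity)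
      _ = Φ e F * (σ * AA x ^ 3 * √(yy x) ^ e) := by ring
      _ = (τ * Φ e F) * (AA x ^ e * √(yy x) ^ (v + 3)) := by
          rw [h2]
          ring
      _ ≤ Φ 3 (F + v) * (AA x ^ e * √(yy x) ^ (v + 3)) :=
          mul_le_mul_of_nonneg_right h1 (by positivity)
  have h5 : Φ e F = (Φ e F * (c / (((C : ℝ) + 1) * e)) * (AA x ^ 3 * √(yy x) ^ e)) *
      ((((C : ℝ) + 1) * e) / (c * (AA x ^ 3 * √(yy x) ^ e))) := by
    have hce : (((C : ℝ) + 1) * e) ≠ 0 := he0.ne'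
    have h6 : c ≠ 0 := hc.ne'
    have h7 : AA x ^ 3 * √(yy x) ^ e ≠ 0 := by positivity
    generalize ((C : ℝ) + 1) * e = u at hce ⊢
    generalize AA x ^ 3 * √(yy x) ^ e = z at h7 ⊢
    field_simp
  rw [h5]
  refine le_trans (mul_le_mul_of_nonneg_right h4 (by positivity)) (le_of_eq ?_)
  unfold gam
  rw [div_pow, pow_add]
  have h6 : c ≠ 0 := hc.ne'
  have h7 : AA x ≠ 0 := hA.ne'
  have h8 : √(yy x) ≠ 0 := hy.ne'
  field_simp

theorem red {x : ℝ} (hx : 0 < x) : ∃ (C₁ : ℝ) (C₀ : ℕ), 0 < C₁ ∧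
    ∀ Φ : ℕ → ℕ → ℝ, HP Φ → ∀ e F : ℕ, 1 ≤ e → ∃ v : ℕ, v ≤ C₀ * e ∧
      Φ e F ≤ C₁ * e * gam x ^ e * √(yy x) ^ v * Φ 3 (F + v) := by
  obtain ⟨K, C, hK, h⟩ := red_big hx
  have hg := red_gam_pos x
  have hy : 0 < √(yy x) := Real.sqrt_pos.2 (yy_pos x)
  refine ⟨K + 1 / gam x + 1 / (gam x ^ 2 * √(yy x)), C + 1, by positivity, ?_⟩
  intro Φ hΦ e F he
  rcases Nat.lt_or_ge e 3 with h3 | h3
  · have h12 : e = 1 ∨ e = 2 := by omega
    rcases h12 with rfl | rfl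
    · refine ⟨0, Nat.zero_le _, ?_⟩
      have h1 := red_word hΦ (w := [Stp.L 0 0]) (e := 1) F ⟨le_rfl, trivial⟩ rfl
      have h2 : wwt 1 W [Stp.L 0 0] = 1 := by
        rw [wwt_cons, wwt_nil, mul_one]
        exact W_zero_zero
      have h4 : wvol [Stp.L 0 0] = 0 := rfl
      rw [h2, one_mul, h4] at h1
      refine le_trans h1 ?_
      rw [pow_one, pow_zero, mul_one, Nat.cast_one, mul_one]
      have h5 := hΦ.1 3 (F + 0)
      have h6 : 1 ≤ (K + 1 / gam x + 1 / (gam x ^ 2 * √(yy x))) * gam x := by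
        have h7 : 1 / gam x * gam x = 1 := by
          field_simp
        have h8 : 0 ≤ K * gam x := by positivity
        have h9 : 0 ≤ 1 / (gam x ^ 2 * √(yy x)) * gam x := by positivity
        nlinarith
      calc Φ 3 (F + 0) = 1 * Φ 3 (F + 0) := (one_mul _).symm
        _ ≤ (K + 1 / gam x + 1 / (gam x ^ 2 * √(yy x))) * gam x * Φ 3 (F + 0) :=
            mul_le_mul_of_nonneg_right h6 h5
    · refine ⟨1, by omega, ?_⟩
      have h1 := red_word hΦ (w := [Stp.T, Stp.L 0 0]) (e := 2) F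
        ⟨trivial, (by show 0 + 3 ≤ 3 + 1; norm_num), trivial⟩ rfl
      have h2 : wwt 1 W [Stp.T, Stp.L 0 0] = 1 := by
        rw [wwt_cons, wwt_cons, wwt_nil, mul_one]
        show 1 * W 0 0 = 1
        rw [W_zero_zero, mul_one]
      have h4 : wvol [Stp.T, Stp.L 0 0] = 1 := rfl
      rw [h2, one_mul, h4] at h1
      refine le_trans h1 ?_
      have h5 := hΦ.1 3 (F + 1)
      have h6 : 1 ≤ (K + 1 / gam x + 1 / (gam x ^ 2 * √(yy x))) * ((2 : ℕ) : ℝ) * gam x ^ 2 * √(yy x) ^ 1 := by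
        have h7 : 1 / (gam x ^ 2 * √(yy x)) * (gam x ^ 2 * √(yy x)) = 1 := by
          field_simp
        have h8 : 0 ≤ K * (gam x ^ 2 * √(yy x)) := by positivity
        have h9 : 0 ≤ 1 / gam x * (gam x ^ 2 * √(yy x)) := by positivity
        rw [pow_one]
        push_cast
        nlinarith
      calc Φ 3 (F + 1) = 1 * Φ 3 (F + 1) := (one_mul _).symm
        _ ≤ (K + 1 / gam x + 1 / (gam x ^ 2 * √(yy x))) * ((2 : ℕ) : ℝ) * gam x ^ 2 * √(yy x) ^ 1 *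
              Φ 3 (F + 1) := mul_le_mul_of_nonneg_right h6 h5
  · obtain ⟨v, hv, h1⟩ := h Φ hΦ e F h3
    refine ⟨v, hv.trans (Nat.mul_le_mul_right e (by omega)), le_trans h1 ?_⟩
    have h2 : K ≤ K + 1 / gam x + 1 / (gam x ^ 2 * √(yy x)) := by
      have h8 : 0 ≤ 1 / gam x := by positivity
      have h9 : 0 ≤ 1 / (gam x ^ 2 * √(yy x)) := by positivity
      linarith
    have h3 := hΦ.1 3 (F + v)
    have h4 : 0 ≤ (e : ℝ) * gam x ^ e * √(yy x) ^ v * Φ 3 (F + v) := by positivity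
    calc K * e * gam x ^ e * √(yy x) ^ v * Φ 3 (F + v)
        = K * (e * gam x ^ e * √(yy x) ^ v * Φ 3 (F + v)) := by ring
      _ ≤ (K + 1 / gam x + 1 / (gam x ^ 2 * √(yy x))) * (e * gam x ^ e * √(yy x) ^ v * Φ 3 (F + v)) :=
          mul_le_mul_of_nonneg_right h2 h4
      _ = _ := by ring

end SYS.Num
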